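import Pool.Agent.Run7.h508.Sp.Zta
import Pool.Agent.H986R2.K4.A1
import Pool.Agent.H986R2.K4.A2
import Pool.Agent.H986R2.K4.HHb
import Pool.Agent.H986R2.K4.PL
import Pool.Agent.H986R2.K4.VdC
import Pool.Agent.H986R2.K4.V0

set_option autoImplicit false

/-!
# The size of the xi function on horizontal lines
-/

namespace Pool.Agent.Run7.h508.Sh

open Complex Filter Topology Set
open Pool.Agent.H24R2.JP (XX HH Om)
open Pool.Agent.H986R2.K4 (ZB)
open Pool.Agent.Run7.h508.Sp (point ev_large ev_win ev_log XX_refl XX_conj)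

lemma ev_mul (c ε : ℝ) (hε : 0 < ε) : ∀ᶠ t : ℝ in atTop, c ≤ ε * Real.log t := by
  filter_upwards [ev_large (c / ε)] with t ht
  rw [div_le_iff₀ hε] at ht
  linarith

/-- the gamma factor -/
lemma hsize (R ε : ℝ) (hε : 0 < ε) : ∀ᶠ t : ℝ in atTop, ∀ z : ℂ, z.im = t → |z.re| ≤ R →
    DifferentiableAt ℂ HH z ∧ HH z ≠ 0 ∧ ‖logDeriv HH z - ((Real.log t / 2 : ℝ) : ℂ)‖ ≤ ε * Real.log t ∧
    ‖HH (I * t)‖ * Real.exp ((z.re / 2 - ε) * Real.log t) ≤ ‖HH z‖ ∧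
    ‖HH z‖ ≤ ‖HH (I * t)‖ * Real.exp ((z.re / 2 + ε) * Real.log t) := by
  obtain ⟨K, hK, h⟩ := Pool.Agent.H986R2.K4.hh
  obtain ⟨T0, hT0, h⟩ := h (|R| + 1) (by linarith [abs_nonneg R])
  filter_upwards [eventually_ge_atTop T0, ev_mul K ε hε, ev_mul (K * (|R| + 1)) ε hε] with t h0 h1 h2 z
    hz1 hz2
  have hn : ‖((z.re : ℝ) : ℂ)‖ ≤ |R| + 1 := by
    rw [Complex.norm_real, Real.norm_eq_abs]
    linarith [le_abs_self R]
  obtain ⟨a1, a2, a3, a4, a5⟩ := h t (z.re : ℂ) h0 hn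
  rw [point t z hz1] at a1 a2 a3 a4 a5
  rw [Complex.ofReal_re] at a4 a5
  refine ⟨a1, a2, a3.trans h1, ?_, ?_⟩
  · refine le_trans ?_ a4
    rw [mul_comm]
    gcongr
    unfold Om
    linarith
  · refine a5.trans ?_
    rw [mul_comm]
    gcongr
    unfold Om
    linarith

/-- comparison of near heights -/
lemma hnear (H ε : ℝ) (hε : 0 < ε) : ∀ᶠ t : ℝ in atTop, ∀ t' : ℝ, |t' - t| ≤ H →
    ‖HH (I * t)‖ ≤ ‖HH (I * t')‖ * Real.exp (ε * Real.log t) ∧
    ‖HH (I * t')‖ ≤ ‖HH (I * t)‖ * Real.exp (ε * Real.log t) := by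
  obtain ⟨K, hK, h⟩ := Pool.Agent.H986R2.K4.hh
  obtain ⟨T0, hT0, h⟩ := h (|H| + 1) (by linarith [abs_nonneg H])
  filter_upwards [eventually_ge_atTop T0, ev_mul (K * (|H| + 1)) ε hε] with t h0 h2 t' ht'
  have hn : ‖I * ((t' - t : ℝ) : ℂ)‖ ≤ |H| + 1 := by
    rw [norm_mul, Complex.norm_I, one_mul, Complex.norm_real, Real.norm_eq_abs]
    linarith [le_abs_self H]
  obtain ⟨-, -, -, a4, a5⟩ := h t (I * ((t' - t : ℝ) : ℂ)) h0 hn
  have e : I * (t : ℂ) + I * ((t' - t : ℝ) : ℂ) = I * (t' : ℂ) := by push_cast; ring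
  have e2 : (I * ((t' - t : ℝ) : ℂ)).re = 0 := by simp
  rw [e, e2] at a4 a5
  constructor
  · have h3 : ‖HH (I * t)‖ = (Real.exp (Om t * 0 - K * (|H| + 1)) * ‖HH (I * t)‖) *
        Real.exp (K * (|H| + 1)) := by
      rw [mul_comm (Real.exp _) (‖HH (I * t)‖), mul_assoc, ← Real.exp_add, mul_zero, zero_sub, neg_add_cancel,
        Real.exp_zero, mul_one]
    rw [h3]
    gcongr
  · refine a5.trans ?_
    rw [mul_comm]
    gcongr
    rw [mul_zero, zero_add]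
    exact h2

/-- to the right of the zeros -/
lemma low {y : ℝ} (hy : 0 ≤ y) (hZ : ZB y) (η R ε : ℝ) (hη : 0 < η) (hε : 0 < ε) :
    ∀ᶠ t : ℝ in atTop, ∀ z : ℂ, z.im = t → y + η ≤ z.re → z.re ≤ R →
      XX z ≠ 0 ∧ ‖logDeriv XX z - ((Real.log t / 2 : ℝ) : ℂ)‖ ≤ ε * Real.log t ∧
      ‖HH (I * t)‖ * Real.exp ((z.re / 2 - ε) * Real.log t) ≤ ‖XX z‖ ∧
      ‖XX z‖ ≤ ‖HH (I * t)‖ * Real.exp ((z.re / 2 + ε) * Real.log t) := by
  obtain ⟨ε1, hε1⟩ : ∃ ε1 : ℝ, ε1 = min η (ε / 2) := ⟨_, rfl⟩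
  have h10 : 0 < ε1 := by rw [hε1]; exact lt_min hη (by linarith)
  have h11 : ε1 ≤ η := by rw [hε1]; exact min_le_left _ _
  have h12 : ε1 ≤ ε / 2 := by rw [hε1]; exact min_le_right _ _
  obtain ⟨t1, ht1, h⟩ := hZ ε1 h10
  filter_upwards [eventually_ge_atTop t1, hsize R (ε / 2) (by linarith), ev_large 1] with t h0 h1 hL z
    hz1 hz2 hz3
  have ht0 : 0 < t := by linarith
  have hzim : 0 < z.im := by rw [hz1]; exact ht0
  obtain ⟨a1, a2, a3, a4, a5⟩ := h1 z hz1 (by rw [abs_of_nonneg (by linarith)]; exact hz3)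
  have hre : (1 / 2 + z : ℂ).re = 1 / 2 + z.re := by simp
  have him : (1 / 2 + z : ℂ).im = t := by simp [hz1]
  obtain ⟨b1, b2, b3, b4⟩ := h (1 / 2 + z) (by rw [hre]; linarith) (by rw [him]; exact h0)
  rw [him] at b2 b3 b4
  have hv := Pool.Agent.H24R2.JP.zetaS.1 z hzim
  have hX : XX z ≠ 0 := by rw [hv]; exact mul_ne_zero a2 b1
  have e1 : (1 / 2 + z : ℂ) - 1 / 2 = z := by ring
  obtain ⟨-, c2, c3⟩ := Pool.Agent.Run7.h508.Sp.zeta_logDeriv (s := 1 / 2 + z) (by rw [him]; exact ht0)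
    (by rw [e1]; exact hX)
  rw [e1] at c2 c3
  have hL0 : 0 ≤ Real.log t := by linarith
  refine ⟨hX, ?_, ?_, ?_⟩
  · have e : logDeriv XX z - ((Real.log t / 2 : ℝ) : ℂ) =
        (logDeriv HH z - ((Real.log t / 2 : ℝ) : ℂ)) + logDeriv riemannZeta (1 / 2 + z) := by
      rw [c2]; ring
    rw [e]
    refine (norm_add_le _ _).trans ?_
    nlinarith
  · rw [← c3]
    have h5 : Real.exp (-(ε / 2) * Real.log t) ≤ ‖riemannZeta (1 / 2 + z)‖ := by
      refine le_trans ?_ b3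
      rw [Real.rpow_def_of_pos ht0]
      apply Real.exp_le_exp.2
      nlinarith
    calc ‖HH (I * t)‖ * Real.exp ((z.re / 2 - ε) * Real.log t)
        = Real.exp (-(ε / 2) * Real.log t) * (‖HH (I * t)‖ * Real.exp ((z.re / 2 - ε / 2) * Real.log t)) := by
          rw [mul_left_comm, ← Real.exp_add]; ring_nf
      _ ≤ _ := mul_le_mul h5 a4 (by positivity) (norm_nonneg _)
  · rw [← c3]
    have h5 : ‖riemannZeta (1 / 2 + z)‖ ≤ Real.exp ((ε / 2) * Real.log t) := by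
      refine b4.trans ?_
      rw [Real.rpow_def_of_pos ht0]
      apply Real.exp_le_exp.2
      nlinarith
    calc _ ≤ Real.exp ((ε / 2) * Real.log t) * (‖HH (I * t)‖ * Real.exp ((z.re / 2 + ε / 2) * Real.log t)) :=
          mul_le_mul h5 a5 (norm_nonneg _) (by positivity)
      _ = _ := by rw [mul_left_comm, ← Real.exp_add]; ring_nf

lemma refl_im (z : ℂ) : (-((starRingEnd ℂ) z)).im = z.im := by simp
lemma refl_re (z : ℂ) : (-((starRingEnd ℂ) z)).re = -z.re := by simp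

/-- reduction to the right half-plane -/
lemma right_wlog {p : ℝ → ℝ → Prop} {t : ℝ} (h : ∀ z : ℂ, z.im = t → 0 ≤ z.re → p z.re ‖XX z‖)
    (z : ℂ) (hz : z.im = t) : p |z.re| ‖XX z‖ := by
  rcases le_total 0 z.re with h0 | h0
  · rw [abs_of_nonneg h0]; exact h z hz h0
  · rw [abs_of_nonpos h0, (XX_refl z).1, ← refl_re]
    refine h _ (by rw [refl_im]; exact hz) ?_
    rw [refl_re]; linarith

/-- upper bounds everywhere -/
lemma up {y : ℝ} (hy : 0 ≤ y) (hy2 : y ≤ 1 / 2) (hZ : ZB y) (R ε : ℝ) (hε : 0 < ε) :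
    ∀ᶠ t : ℝ in atTop, ∀ z : ℂ, z.im = t → |z.re| ≤ R →
      ‖XX z‖ ≤ ‖HH (I * t)‖ * Real.exp ((max |z.re| y / 2 + ε) * Real.log t) := by
  obtain ⟨ε1, hε1⟩ : ∃ ε1 : ℝ, ε1 = min (ε / 4) (1 / 2) := ⟨_, rfl⟩
  have h10 : 0 < ε1 := by rw [hε1]; exact lt_min (by linarith) (by norm_num)
  have h11 : ε1 ≤ ε / 4 := by rw [hε1]; exact min_le_left _ _
  have h12 : ε1 ≤ 1 / 2 := by rw [hε1]; exact min_le_right _ _
  obtain ⟨t1, ht1, h⟩ := hZ ε1 h10
  obtain ⟨C', T0, hC', hT0, hpl⟩ := Pool.Agent.H986R2.K4.pl Pool.Agent.H986R2.K4.hh (y + ε1) ε1 1 t1 1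
    (by linarith) (by linarith) h10.le (by linarith) one_pos (by linarith) le_rfl (by
      intro t ht
      have hre : (1 / 2 + ((y + ε1 : ℝ) : ℂ) + t * I).re = 1 / 2 + y + ε1 := by simp; ring
      have him : (1 / 2 + ((y + ε1 : ℝ) : ℂ) + t * I).im = t := by simp
      have := (h (1 / 2 + ((y + ε1 : ℝ) : ℂ) + t * I) (by rw [hre]) (by rw [him]; exact ht)).2.2.2
      rw [him] at this
      rw [one_mul]
      exact this)
  filter_upwards [eventually_ge_atTop T0, low hy hZ ε1 R ε h10 hε, ev_large 1,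
    ev_mul (Real.log C') (ε / 4) (by linarith)] with t h0 h1 hL hC z hz1 hz2
  have ht0 : 0 < t := by linarith
  refine right_wlog (p := fun x X => x ≤ R → X ≤ ‖HH (I * t)‖ * Real.exp ((max x y / 2 + ε) * Real.log t))
    ?_ z hz1 hz2
  intro z hz1 hz0 hz2
  have hpos : 0 ≤ ‖HH (I * t)‖ := norm_nonneg _
  rcases le_total (y + ε1) z.re with h3 | h3
  · refine (h1 z hz1 h3 hz2).2.2.2.trans ?_
    gcongr
    exact le_max_left _ _
  · have h4 := hpl t (z.re : ℂ) h0 (by rw [Complex.ofReal_re, abs_of_nonneg hz0]; exact h3) (by simp)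
    rw [point t z hz1] at h4
    refine h4.trans ?_
    have h5 : C' = Real.exp (Real.log C') := (Real.exp_log hC').symm
    calc C' * t ^ ε1 * (Real.exp ((y + ε1) * Om t) * ‖HH (I * t)‖)
        = ‖HH (I * t)‖ * Real.exp (Real.log C' + Real.log t * ε1 + (y + ε1) * Om t) := by
          rw [Real.rpow_def_of_pos ht0, Real.exp_add, Real.exp_add, ← h5]; ring
      _ ≤ _ := by
          gcongr
          have h6 : y ≤ max z.re y := le_max_right _ _
          unfold Om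
          nlinarith

/-- a little better than convexity, inside the strip -/
lemma vdc (e1 : ℝ) (he1 : 0 < e1) : ∃ c : ℝ, 0 < c ∧ ∀ᶠ t : ℝ in atTop, ∀ z : ℂ, z.im = t →
    |z.re| ≤ 1 / 2 - e1 → ‖XX z‖ ≤ ‖HH (I * t)‖ * Real.exp ((1 / 4 - c) * Real.log t) := by
  obtain ⟨e0, he0, he04, hv⟩ := Pool.Agent.H986R2.K4.vdcQ (1 / 4) (by norm_num)
  obtain ⟨e, he⟩ : ∃ e : ℝ, e = min e0 e1 := ⟨_, rfl⟩
  have h0 : 0 < e := by rw [he]; exact lt_min he0 he1
  have h1 : e ≤ e0 := by rw [he]; exact min_le_left _ _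
  have h2 : e ≤ e1 := by rw [he]; exact min_le_right _ _
  obtain ⟨C, hC, hv⟩ := hv e h0 h1
  obtain ⟨C', T0, hC', hT0, hpl⟩ := Pool.Agent.H986R2.K4.pl Pool.Agent.H986R2.K4.hh (1 / 2 - e) (1 / 4 * e) C
    2 1 (by linarith) (by linarith) (by linarith) (by linarith) hC (by norm_num) le_rfl (by
      intro t ht
      have e2 : (1 / 2 + ((1 / 2 - e : ℝ) : ℂ) + t * I) = 1 - e + t * I := by push_cast; ring
      rw [e2]
      exact hv t ht)
  refine ⟨e / 8, by linarith, ?_⟩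
  filter_upwards [eventually_ge_atTop T0, ev_large 1, ev_mul (Real.log C') (e / 8) (by linarith)]
    with t h3 hL hC z hz1 hz2
  have ht0 : 0 < t := by linarith
  have h4 := hpl t (z.re : ℂ) h3 (by rw [Complex.ofReal_re]; linarith) (by simp)
  rw [point t z hz1] at h4
  refine h4.trans ?_
  have h5 : C' = Real.exp (Real.log C') := (Real.exp_log hC').symm
  calc C' * t ^ (1 / 4 * e) * (Real.exp ((1 / 2 - e) * Om t) * ‖HH (I * t)‖)
      = ‖HH (I * t)‖ * Real.exp (Real.log C' + Real.log t * (1 / 4 * e) + (1 / 2 - e) * Om t) := by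
        rw [Real.rpow_def_of_pos ht0, Real.exp_add, Real.exp_add, ← h5]; ring
    _ ≤ _ := by
        gcongr
        unfold Om
        nlinarith

end Pool.Agent.Run7.h508.Sh
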