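import Pool.Agent.Run7.h508.Sh.Dom
import Pool.Agent.H986R2.K4.SAB

set_option autoImplicit false

/-!
# Converse: where a combination of shifts has no zeros, xi has no zeros near the edge of the strip
-/

namespace Pool.Agent.Run7.h508.Sh

open Complex Filter Topology Set Finset
open Pool.Agent.H24R2.JP (XX HH Om)
open Pool.Agent.H986R2.K4 (ZB)
open Pool.Agent.Run7.h508.Sp (point ev_large ev_win ev_log XX_refl XX_conj)

/-- a gap -/
lemma gap_exists (S : Finset ℝ) (h : ℝ) (hS : ∀ k ∈ S, k < h ∧ h < k + 1) : ∃ e : ℝ, 0 < e ∧ e ≤ 1 / 4 ∧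
    ∀ k ∈ S, e ≤ h - k ∧ e ≤ (1 - (h - k)) / 2 := by
  induction S using Finset.induction_on with
  | empty => exact ⟨1 / 4, by norm_num, le_rfl, fun k hk => absurd hk (Finset.notMem_empty k)⟩
  | insert s S hs ih =>
    obtain ⟨e, h1, h2, h3⟩ := ih fun k hk => hS k (Finset.mem_insert_of_mem hk)
    obtain ⟨q1, q2⟩ := hS s (Finset.mem_insert_self s S)
    refine ⟨min e (min (h - s) ((1 - (h - s)) / 2)), lt_min h1 (lt_min (by linarith) (by linarith)),
      (min_le_left _ _).trans h2, fun k hk => ?_⟩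
    rcases Finset.mem_insert.1 hk with rfl | hk
    · exact ⟨(min_le_right _ _).trans (min_le_left _ _), (min_le_right _ _).trans (min_le_right _ _)⟩
    · exact ⟨(min_le_left _ _).trans (h3 k hk).1, (min_le_left _ _).trans (h3 k hk).2⟩

/-- the function, shifted so that the leading term is `α XX w` -/
noncomputable def Gs (S : Finset ℝ) (a : ℝ → ℂ) (h : ℝ) (α : ℂ) (w : ℂ) : ℂ := α * XX w + ps S a (w - h)

lemma Gs_diff (S : Finset ℝ) (a : ℝ → ℂ) (h : ℝ) (α : ℂ) : Differentiable ℂ (Gs S a h α) := by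
  unfold Gs
  exact (XX_d.const_mul _).add ((ps_diff S a).comp (differentiable_id.sub_const _))

lemma Gs_crude (S : Finset ℝ) (a : ℝ → ℂ) (h : ℝ) (α : ℂ) (R : ℝ) : ∃ K : ℝ, 0 ≤ K ∧
    ∀ᶠ t : ℝ in atTop, ∀ w : ℂ, w.im = t → |w.re| ≤ R →
      ‖Gs S a h α w‖ ≤ ‖HH w‖ * Real.exp (K * Real.log t) := by
  have h0 : (0 : ℝ) ≤ 1 / 2 := by norm_num
  have hZ : ZB (1 / 2) := Pool.Agent.H986R2.K4.a1
  obtain ⟨M, hM⟩ : ∃ M : ℝ, M = |R| + |h| + 1 + ∑ k ∈ S, |k| := ⟨_, rfl⟩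
  have hMS : 0 ≤ ∑ k ∈ S, |k| := Finset.sum_nonneg fun k _ => abs_nonneg k
  have hR0 := abs_nonneg R
  have hh0 := abs_nonneg h
  have hRR := le_abs_self R
  refine ⟨M + |R| + 4, by linarith, ?_⟩
  filter_upwards [ps_up h0 le_rfl hZ S a (|R| + |h|) 1 one_pos, up h0 le_rfl hZ R 1 one_pos,
    hsize R 1 one_pos, ev_large 1, ev_mul (Real.log (‖α‖ + 1)) 1 one_pos] with t h1 h2 h3 hL hC w hw1 hw2
  have hre : (w - h).re = w.re - h := by simp
  have him : (w - h).im = t := by simp [hw1]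
  have hb : |(w - h).re| ≤ |R| + |h| := by
    rw [hre]
    exact (abs_sub _ _).trans (by linarith)
  have a1 := h1 (w - h) him hb M (fun k hk => ⟨by
    have hkR : |k| ≤ ∑ k ∈ S, |k| := Finset.single_le_sum (f := fun k : ℝ => |k|) (fun i _ => abs_nonneg i) hk
    exact (abs_add_le _ _).trans (by linarith), by linarith⟩)
  have a2 := h2 w hw1 hw2
  have a3 := (h3 w hw1 hw2).2.2.2.1
  have hm : max |w.re| (1 / 2) ≤ M := max_le (by linarith) (by linarith)
  have hx : -|R| ≤ w.re := by rw [abs_le] at hw2; linarith [hw2.1]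
  have a4 : ‖HH (I * t)‖ ≤ ‖HH w‖ * Real.exp ((|R| / 2 + 1) * Real.log t) := by
    have e : ‖HH (I * t)‖ = (‖HH (I * t)‖ * Real.exp ((w.re / 2 - 1) * Real.log t)) *
        Real.exp ((1 - w.re / 2) * Real.log t) := by
      rw [mul_assoc, ← Real.exp_add]
      have : (w.re / 2 - 1) * Real.log t + (1 - w.re / 2) * Real.log t = 0 := by ring
      rw [this, Real.exp_zero, mul_one]
    rw [e]
    refine mul_le_mul a3 (Real.exp_le_exp.2 ?_) (by positivity) (norm_nonneg _)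
    nlinarith
  have hα : ‖α‖ + 1 = Real.exp (Real.log (‖α‖ + 1)) := by
    rw [Real.exp_log (by positivity)]
  calc ‖Gs S a h α w‖ ≤ ‖α‖ * ‖XX w‖ + ‖ps S a (w - h)‖ := by
        unfold Gs
        exact (norm_add_le _ _).trans (by rw [norm_mul])
    _ ≤ ‖α‖ * (‖HH (I * t)‖ * Real.exp ((M / 2 + 1) * Real.log t)) +
          ‖HH (I * t)‖ * Real.exp ((M / 2 + 1) * Real.log t) := by
        gcongr
        refine a2.trans ?_
        gcongr
    _ = (‖α‖ + 1) * Real.exp ((M / 2 + 1) * Real.log t) * ‖HH (I * t)‖ := by ring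
    _ ≤ Real.exp (1 * Real.log t) * Real.exp ((M / 2 + 1) * Real.log t) *
          (‖HH w‖ * Real.exp ((|R| / 2 + 1) * Real.log t)) := by
        rw [hα]
        gcongr
    _ = ‖HH w‖ * Real.exp (1 * Real.log t + (M / 2 + 1) * Real.log t + (|R| / 2 + 1) * Real.log t) := by
        rw [Real.exp_add, Real.exp_add]; ring
    _ ≤ _ := by
        gcongr
        have hL0 : 0 ≤ Real.log t := by linarith
        have hM0 : 0 ≤ M := by linarith
        nlinarith [mul_nonneg hM0 hL0, mul_nonneg hR0 hL0]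

lemma Gs_right (S : Finset ℝ) (a : ℝ → ℂ) (h : ℝ) (hS : ∀ k ∈ S, k < h ∧ h < k + 1) {α : ℂ} (hα : α ≠ 0)
    (R ε : ℝ) (hε : 0 < ε) :
    ∀ᶠ t : ℝ in atTop, ∀ w : ℂ, w.im = t → 3 / 2 ≤ w.re → w.re ≤ R →
      ‖HH w‖ * Real.exp (-(ε * Real.log t)) ≤ ‖Gs S a h α w‖ ∧
      ‖Gs S a h α w‖ ≤ ‖HH w‖ * Real.exp (ε * Real.log t) := by
  have h0 : (0 : ℝ) ≤ 1 / 2 := by norm_num
  have hZ : ZB (1 / 2) := Pool.Agent.H986R2.K4.a1
  obtain ⟨e, he, he1, heS⟩ := gap_exists S h hS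
  have hα0 : 0 < ‖α‖ := norm_pos_iff.2 hα
  filter_upwards [dom h0 le_rfl hZ S a h (|R| + |h|) e he, low h0 hZ (1 / 2) R (ε / 4) (by norm_num)
    (by linarith), hsize |R| (ε / 4) (by linarith), ev_large 1, ev_mul (Real.log (2 * ‖α‖)) (ε / 2) (by linarith),
    ev_mul (Real.log (2 / ‖α‖)) (ε / 2) (by linarith), ev_mul (-Real.log (‖α‖ / 2)) (e / 4) (by linarith)]
    with t h1 h2 h3 hL c1 c2 c3 w hw1 hw2 hw3
  have hre : (w - h).re = w.re - h := by simp
  have him : (w - h).im = t := by simp [hw1]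
  have hsum : w - h + h = w := by ring
  obtain ⟨d1, d2⟩ := h1 (w - h) him (by
    rw [hre]
    refine (abs_sub _ _).trans ?_
    rw [abs_of_nonneg (by linarith : 0 ≤ w.re)]
    linarith [le_abs_self R]) (by rw [hre]; linarith) (fun k hk => by
      rw [hre, abs_le]
      obtain ⟨g1, g2⟩ := heS k hk
      obtain ⟨g3, g4⟩ := hS k hk
      constructor <;> linarith)
  rw [hsum] at d1 d2
  obtain ⟨-, -, b3, b4⟩ := h2 w hw1 (by linarith) hw3
  obtain ⟨-, -, -, a4, a5⟩ := h3 w hw1 (by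
    rw [abs_of_nonneg (by linarith : 0 ≤ w.re)]
    linarith [le_abs_self R])
  -- the small factor
  have hsm : Real.exp (-(e / 4) * Real.log t) ≤ ‖α‖ / 2 := by
    have e1 : ‖α‖ / 2 = Real.exp (Real.log (‖α‖ / 2)) := by rw [Real.exp_log (by positivity)]
    rw [e1]
    apply Real.exp_le_exp.2
    linarith
  have hps : ‖ps S a (w - h)‖ ≤ ‖α‖ / 2 * ‖XX w‖ := d2.trans (by gcongr)
  have hlow : ‖α‖ / 2 * ‖XX w‖ ≤ ‖Gs S a h α w‖ := by
    unfold Gs
    have := norm_sub_le (α * XX w + ps S a (w - h)) (ps S a (w - h))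
    rw [add_sub_cancel_right, norm_mul] at this
    linarith
  have hupp : ‖Gs S a h α w‖ ≤ 2 * ‖α‖ * ‖XX w‖ := by
    unfold Gs
    have := norm_add_le (α * XX w) (ps S a (w - h))
    rw [norm_mul] at this
    have : 0 ≤ ‖α‖ * ‖XX w‖ := by positivity
    linarith
  constructor
  · refine le_trans ?_ hlow
    have e1 : 2 / ‖α‖ = Real.exp (Real.log (2 / ‖α‖)) := by rw [Real.exp_log (by positivity)]
    have e2 : ‖α‖ / 2 = (2 / ‖α‖)⁻¹ := by rw [inv_div]
    have e3 : Real.exp (-(ε / 2) * Real.log t) ≤ ‖α‖ / 2 := by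
      rw [e2, e1, ← Real.exp_neg]
      apply Real.exp_le_exp.2
      linarith
    calc ‖HH w‖ * Real.exp (-(ε * Real.log t))
        ≤ (‖HH (I * t)‖ * Real.exp ((w.re / 2 + ε / 4) * Real.log t)) * Real.exp (-(ε * Real.log t)) := by
          gcongr
      _ = Real.exp (-(ε / 2) * Real.log t) * (‖HH (I * t)‖ * Real.exp ((w.re / 2 - ε / 4) * Real.log t)) := by
          have e4 : Real.exp ((w.re / 2 + ε / 4) * Real.log t) * Real.exp (-(ε * Real.log t)) =
              Real.exp (-(ε / 2) * Real.log t) * Real.exp ((w.re / 2 - ε / 4) * Real.log t) := by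
            rw [← Real.exp_add, ← Real.exp_add]; ring_nf
          rw [mul_assoc, e4]; ring
      _ ≤ ‖α‖ / 2 * ‖XX w‖ := by gcongr
  · refine hupp.trans ?_
    have e1 : 2 * ‖α‖ = Real.exp (Real.log (2 * ‖α‖)) := by rw [Real.exp_log (by positivity)]
    calc 2 * ‖α‖ * ‖XX w‖ ≤ Real.exp (ε / 2 * Real.log t) *
          (‖HH (I * t)‖ * Real.exp ((w.re / 2 + ε / 4) * Real.log t)) := by
          rw [e1]
          gcongr
      _ = (‖HH (I * t)‖ * Real.exp ((w.re / 2 - ε / 4) * Real.log t)) * Real.exp (ε * Real.log t) := by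
          have e4 : Real.exp (ε / 2 * Real.log t) * Real.exp ((w.re / 2 + ε / 4) * Real.log t) =
              Real.exp ((w.re / 2 - ε / 4) * Real.log t) * Real.exp (ε * Real.log t) := by
            rw [← Real.exp_add, ← Real.exp_add]; ring_nf
          rw [mul_left_comm, e4]; ring
      _ ≤ _ := by gcongr

/-- control of `G` where it has no zeros -/
lemma Gs_ctrl (S : Finset ℝ) (a : ℝ → ℂ) (h : ℝ) (hS : ∀ k ∈ S, k < h ∧ h < k + 1) {α : ℂ} (hα : α ≠ 0)
    (δ η T : ℝ) (hδ : 0 < δ) (hδ1 : δ ≤ 1 / 4) (hη : 0 < η)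
    (hz : ∀ w : ℂ, 1 / 2 - δ < w.re → T ≤ w.im → Gs S a h α w ≠ 0) :
    ∀ᶠ t : ℝ in atTop, ∀ w : ℂ, w.im = t → 1 / 2 - δ / 2 ≤ w.re → w.re ≤ 3 / 2 →
      ‖HH w‖ * Real.exp (-(η * Real.log t)) ≤ ‖Gs S a h α w‖ := by
  obtain ⟨K, hK, hcr⟩ := Gs_crude S a h α 11
  obtain ⟨ε, hε, hs⟩ := Pool.Agent.H986R2.K4.sab (δ / 2) η (2 * K + 1) (by linarith) (by linarith) hη (by linarith)
  filter_upwards [ev_win hcr 10, ev_win (Gs_right S a h hS hα 11 (ε / 2) (by linarith)) 10,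
    ev_log 10 1 one_pos, ev_large 1, eventually_ge_atTop (T + 10), eventually_ge_atTop 11,
    ev_win (hsize 11 1 one_pos) 10] with t h1 h2 h3 hL hT ht h4 w hw1 hw2 hw3
  obtain ⟨b, hb⟩ : ∃ b : ℝ, b = 1 / 2 - δ := ⟨_, rfl⟩
  obtain ⟨g, hg⟩ : ∃ g : ℂ → ℂ, g = fun v => Gs S a h α (I * t + b + v) / HH (I * t + b + v) := ⟨_, rfl⟩
  have hre : ∀ v : ℂ, (I * t + b + v).re = b + v.re := fun v => by simp
  have him : ∀ v : ℂ, (I * t + b + v).im = t + v.im := fun v => by simp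
  have hgn : ∀ v : ℂ, ‖g v‖ = ‖Gs S a h α (I * t + b + v)‖ / ‖HH (I * t + b + v)‖ := fun v => by
    rw [hg, norm_div]
  have hbre : ∀ v : ℂ, 0 < v.re → v.re ≤ 10 → |(I * t + b + v).re| ≤ 11 := by
    intro v hv1 hv2
    rw [hre, abs_of_nonneg (by rw [hb]; linarith)]
    rw [hb]; linarith
  have hwin : ∀ v : ℂ, |v.im| ≤ 10 → |(t + v.im) - t| ≤ 10 := by
    intro v hv; rw [add_sub_cancel_left]; exact hv
  have hHd : ∀ v : ℂ, 0 < v.re → v.re ≤ 10 → |v.im| ≤ 10 →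
      DifferentiableAt ℂ HH (I * t + b + v) ∧ HH (I * t + b + v) ≠ 0 := by
    intro v hv1 hv2 hv3
    obtain ⟨q1, q2, -⟩ := h4 (t + v.im) (hwin v hv3) (I * t + b + v) (him v) (hbre v hv1 hv2)
    exact ⟨q1, q2⟩
  have key := hs (Real.log t) g hL ?_ ?_ (w - (I * t + b)) ?_ ?_ ?_
  · obtain ⟨-, k2, -⟩ := key
    have e : I * (t : ℂ) + b + (w - (I * t + b)) = w := by ring
    rw [hgn, e] at k2
    have hH0 : HH w ≠ 0 := by
      have := (hHd (w - (I * t + b)) (by simp; rw [hb]; linarith) (by simp; rw [hb]; linarith) (by simp [hw1])).2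
      rwa [e] at this
    rw [le_div_iff₀ (norm_pos_iff.2 hH0)] at k2
    linarith
  · intro v hv1 hv2 hv3
    obtain ⟨q1, q2⟩ := hHd v hv1 hv2 hv3
    have hd : DifferentiableAt ℂ (fun v : ℂ => I * t + b + v) v := differentiableAt_id.const_add _
    refine ⟨?_, ?_, ?_⟩
    · rw [hg]
      have b1 : DifferentiableAt ℂ (fun v : ℂ => Gs S a h α (I * t + b + v)) v :=
        DifferentiableAt.comp v (Gs_diff S a h α).differentiableAt hd
      have b2 : DifferentiableAt ℂ (fun v : ℂ => HH (I * t + b + v)) v := DifferentiableAt.comp v q1 hd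
      exact b1.div b2 q2
    · rw [hg]
      refine div_ne_zero (hz _ ?_ ?_) q2
      · rw [hre, hb]; linarith
      · rw [him]; rw [abs_le] at hv3; linarith [hv3.1]
    · rw [hgn, div_le_iff₀ (norm_pos_iff.2 q2)]
      refine (h1 (t + v.im) (hwin v hv3) _ (him v) (hbre v hv1 hv2)).trans ?_
      rw [mul_comm]
      refine mul_le_mul_of_nonneg_right (Real.exp_le_exp.2 ?_) (norm_nonneg _)
      obtain ⟨-, -, h6⟩ := h3 (t + v.im) (hwin v hv3)
      rw [abs_le] at h6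
      nlinarith [h6.2]
  · intro v hv1 hv2 hv3
    obtain ⟨q1, q2⟩ := hHd v (by linarith) hv2 hv3
    obtain ⟨r1, r2⟩ := h2 (t + v.im) (hwin v hv3) _ (him v) (by rw [hre, hb]; linarith)
      (by rw [hre, hb]; linarith)
    obtain ⟨-, h5, h6⟩ := h3 (t + v.im) (hwin v hv3)
    rw [abs_le] at h6
    have hlt : ε / 2 * Real.log (t + v.im) ≤ ε * Real.log t := by nlinarith [h6.2]
    rw [hgn, le_div_iff₀ (norm_pos_iff.2 q2), div_le_iff₀ (norm_pos_iff.2 q2)]
    constructor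
    · refine le_trans ?_ r1
      rw [mul_comm]
      gcongr
    · refine r2.trans ?_
      rw [mul_comm]
      gcongr
  · simp; rw [hb]; linarith
  · simp; rw [hb]; linarith
  · simp [hw1]

theorem converse (S : Finset ℝ) (a : ℝ → ℂ) (h : ℝ) (hS : ∀ k ∈ S, k < h ∧ h < k + 1) {α : ℂ} (hα : α ≠ 0)
    (δ T : ℝ) (hδ : 0 < δ) (hz : ∀ w : ℂ, 1 / 2 - δ < w.re → T ≤ w.im → Gs S a h α w ≠ 0) :
    ∃ δ' : ℝ, 0 < δ' ∧ ∀ᶠ t : ℝ in atTop, ∀ w : ℂ, w.im = t → 1 / 2 - δ' ≤ w.re → w.re ≤ 1 / 2 →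
      XX w ≠ 0 := by
  obtain ⟨e, he, he1, heS⟩ := gap_exists S h hS
  obtain ⟨c, hc, hv⟩ := vdc e he
  obtain ⟨d, hd⟩ : ∃ d : ℝ, d = min δ (1 / 4) := ⟨_, rfl⟩
  have hd0 : 0 < d := by rw [hd]; exact lt_min hδ (by norm_num)
  have hd1 : d ≤ δ := by rw [hd]; exact min_le_left _ _
  have hd2 : d ≤ 1 / 4 := by rw [hd]; exact min_le_right _ _
  obtain ⟨δ', hδ'⟩ : ∃ δ' : ℝ, δ' = min (d / 2) (min (c / 2) e) := ⟨_, rfl⟩
  have h0 : 0 < δ' := by rw [hδ']; exact lt_min (by linarith) (lt_min (by linarith) he)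
  have h1 : δ' ≤ d / 2 := by rw [hδ']; exact min_le_left _ _
  have h2 : δ' ≤ c / 2 := by rw [hδ']; exact (min_le_right _ _).trans (min_le_left _ _)
  have h3 : δ' ≤ e := by rw [hδ']; exact (min_le_right _ _).trans (min_le_right _ _)
  obtain ⟨M, hM⟩ : ∃ M : ℝ, M = ∑ k ∈ S, ‖a k‖ := ⟨_, rfl⟩
  have hM0 : 0 ≤ M := by rw [hM]; exact Finset.sum_nonneg fun k _ => norm_nonneg _
  refine ⟨δ', h0, ?_⟩
  filter_upwards [Gs_ctrl S a h hS hα d (c / 8) T hd0 hd2 (by linarith) (fun w hw => hz w (by linarith)),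
    hv, hsize 1 (c / 8) (by linarith), ev_large 1, eventually_gt_atTop 0,
    ev_mul (Real.log (M + 1)) (c / 8) (by linarith)] with t g1 g2 g3 hL ht hC w hw1 hw2 hw3 h00
  have hb := g1 w hw1 (by linarith) (by linarith)
  have hre : (w - h).re = w.re - h := by simp
  have hw0 : 0 ≤ w.re := by linarith
  obtain ⟨-, a2, -, a4, -⟩ := g3 w hw1 (by rw [abs_of_nonneg hw0]; linarith)
  have hps : ‖ps S a (w - h)‖ ≤ M * (‖HH (I * t)‖ * Real.exp ((1 / 4 - c) * Real.log t)) := by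
    unfold ps
    refine (norm_sum_le _ _).trans ?_
    rw [hM, Finset.sum_mul]
    refine Finset.sum_le_sum fun k hk => ?_
    rw [norm_mul]
    refine mul_le_mul_of_nonneg_left (g2 _ (by simp [hw1]) ?_) (norm_nonneg _)
    obtain ⟨q1, q2⟩ := heS k hk
    rw [add_re', hre, abs_le]
    constructor <;> linarith
  have hG : ‖Gs S a h α w‖ = ‖ps S a (w - h)‖ := by
    unfold Gs
    rw [h00, mul_zero, zero_add]
  rw [hG] at hb
  have hN : 0 < ‖HH (I * t)‖ := by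
    rw [norm_pos_iff]
    exact Pool.Agent.H24R2.JP.StirAux.HH_ne (by simpa using ht)
  have e1 : M < Real.exp (c / 8 * Real.log t) := by
    have : M + 1 ≤ Real.exp (c / 8 * Real.log t) := by
      rw [← Real.log_le_iff_le_exp (by linarith)]
      exact hC
    linarith
  have hfin : ‖HH (I * t)‖ * Real.exp ((w.re / 2 - c / 8) * Real.log t) * Real.exp (-(c / 8 * Real.log t)) <
      Real.exp (c / 8 * Real.log t) * (‖HH (I * t)‖ * Real.exp ((1 / 4 - c) * Real.log t)) := by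
    calc _ ≤ ‖HH w‖ * Real.exp (-(c / 8 * Real.log t)) := by gcongr
      _ ≤ M * (‖HH (I * t)‖ * Real.exp ((1 / 4 - c) * Real.log t)) := hb.trans hps
      _ < _ := by gcongr
  have e2 : ‖HH (I * t)‖ * Real.exp ((w.re / 2 - c / 8) * Real.log t) * Real.exp (-(c / 8 * Real.log t)) =
      ‖HH (I * t)‖ * Real.exp ((w.re / 2 - c / 8) * Real.log t - c / 8 * Real.log t) := by
    rw [mul_assoc, ← Real.exp_add]; ring_nf
  have e3 : Real.exp (c / 8 * Real.log t) * (‖HH (I * t)‖ * Real.exp ((1 / 4 - c) * Real.log t)) =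
      ‖HH (I * t)‖ * Real.exp (c / 8 * Real.log t + (1 / 4 - c) * Real.log t) := by
    rw [Real.exp_add]; ring
  rw [e2, e3] at hfin
  have h5 := lt_of_mul_lt_mul_left hfin hN.le
  rw [Real.exp_lt_exp] at h5
  nlinarith

end Pool.Agent.Run7.h508.Sh
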