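import Pool.Agent.Run7.h508.Sh.Cnv
import Pool.Agent.W186.DX.HD

set_option autoImplicit false

/-!
# Zeros of combinations of shifts: the direct theorems
-/

namespace Pool.Agent.Run7.h508.Sh

open Complex Filter Topology Set Finset
open Pool.Agent.H24R2.JP (XX HH Om)
open Pool.Agent.H986R2.K4 (ZB)
open Pool.Agent.Run7.h508.Sp (point ev_large ev_win ev_log XX_refl XX_conj)

lemma norm_lt_of_small {α X p : ℂ} {r : ℝ} (hX : X ≠ 0) (hr : r < ‖α‖) (hp : ‖p‖ ≤ r * ‖X‖) :
    α * X + p ≠ 0 := by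
  intro h
  have h1 : α * X = -p := eq_neg_of_add_eq_zero_left h
  have h2 := congrArg norm h1
  rw [norm_mul, norm_neg] at h2
  have := norm_pos_iff.2 hX
  nlinarith

/-- to the right of the critical line -/
theorem direct {y : ℝ} (hy : 0 ≤ y) (hy2 : y < 1 / 2) (hZ : ZB y) (S : Finset ℝ) (a : ℝ → ℂ) (h : ℝ)
    (hS : ∀ k ∈ S, k < h ∧ h < k + 1) {α : ℂ} (hα : α ≠ 0) :
    ∃ δ T : ℝ, 0 < δ ∧ ∀ w : ℂ, 1 / 2 - δ ≤ w.re → T ≤ w.im → Gs S a h α w ≠ 0 := by
  obtain ⟨e, he, he1, heS⟩ := gap_exists S h hS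
  obtain ⟨κ, hκ⟩ : ∃ κ : ℝ, κ = min e ((1 / 2 - y) / 2) := ⟨_, rfl⟩
  have h0 : 0 < κ := by rw [hκ]; exact lt_min he (by linarith)
  have h1 : κ ≤ e := by rw [hκ]; exact min_le_left _ _
  have h2 : κ ≤ (1 / 2 - y) / 2 := by rw [hκ]; exact min_le_right _ _
  have hα0 : 0 < ‖α‖ := norm_pos_iff.2 hα
  obtain ⟨X0, hX0⟩ := farps S a h (‖α‖ / 2) (fun k hk => (hS k hk).1) (by linarith)
  obtain ⟨T, hT⟩ := eventually_atTop.1 ((dom hy hy2.le hZ S a h (|X0| + |h| + |h| + 1) κ h0).and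
    (ev_mul (-Real.log (‖α‖ / 2)) (κ / 4) (by linarith)))
  refine ⟨κ / 2, T, by linarith, fun w hw1 hw2 => ?_⟩
  obtain ⟨h3, h4⟩ := hT w.im hw2
  have hre : (w - h).re = w.re - h := by simp
  have him : (w - h).im = w.im := by simp
  have hsum : w - h + h = w := by ring
  unfold Gs
  rcases le_total X0 (w.re - h) with h5 | h5
  · obtain ⟨q1, q2⟩ := hX0 (w - h) (by rw [hre]; exact h5)
    rw [hsum] at q1 q2
    exact norm_lt_of_small q1 (by linarith) q2
  · obtain ⟨q1, q2⟩ := h3 (w - h) him (by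
      rw [hre, abs_le]
      have := le_abs_self X0
      have := le_abs_self h
      have := neg_abs_le h
      have := abs_nonneg h
      have := abs_nonneg X0
      constructor <;> linarith) (by rw [hre]; linarith) (fun k hk => by
      rw [hre, abs_le]
      obtain ⟨g1, g2⟩ := heS k hk
      constructor <;> linarith)
    rw [hsum] at q1 q2
    refine norm_lt_of_small q1 (r := ‖α‖ / 2) (by linarith) (q2.trans ?_)
    have e1 : ‖α‖ / 2 = Real.exp (Real.log (‖α‖ / 2)) := by rw [Real.exp_log (by positivity)]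
    rw [e1]
    gcongr
    linarith

/-! ### Symmetric combinations -/

/-- half of a symmetric combination -/
noncomputable def AA (S : Finset ℝ) (a : ℝ → ℂ) (h : ℝ) (z : ℂ) : ℂ := a h * XX (z + h) + 1 / 2 * ps S a z

lemma AA_diff (S : Finset ℝ) (a : ℝ → ℂ) (h : ℝ) : Differentiable ℂ (AA S a h) := by
  unfold AA
  exact ((XX_d.comp (differentiable_id.add_const _)).const_mul _).add ((ps_diff S a).const_mul _)

/-- near the line the logarithmic derivative of the half is close to `log t / 2` -/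
lemma AA_ld {y : ℝ} (hy : 0 ≤ y) (hy2 : y ≤ 1 / 2) (hZ : ZB y) (S : Finset ℝ) (a : ℝ → ℂ) (h κ : ℝ)
    (hκ : 0 < κ) (hyh : y + 6 * κ ≤ h) (hS : ∀ k ∈ S, |k| + 6 * κ ≤ h) (ha : a h ≠ 0) :
    ∀ᶠ t : ℝ in atTop, ∀ z : ℂ, z.im = t → |z.re| ≤ κ →
      AA S a h z ≠ 0 ∧ 1 ≤ (logDeriv (AA S a h) z).re := by
  have ha0 : 0 < ‖a h‖ := norm_pos_iff.2 ha
  have hk1 : 0 < κ + 1 := by linarith
  filter_upwards [ev_win (dom hy hy2 hZ S a h (2 * κ) κ hκ) κ, ev_win (ev_mul (-Real.log (‖a h‖ / 2)) (κ / 4)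
    (by linarith)) κ, low hy hZ κ (κ + h) (1 / 8) hκ (by norm_num), ev_large (8 / κ + 8)]
    with t h1 h2 h3 hL z hz1 hz2
  -- the ratio
  obtain ⟨r, hr⟩ : ∃ r : ℂ → ℂ, r = fun v => 1 / 2 * ps S a v / (a h * XX (v + h)) := ⟨_, rfl⟩
  have hball : ∀ v ∈ Metric.ball z κ, XX (v + h) ≠ 0 ∧ ‖r v‖ ≤ 1 / 4 := by
    intro v hv
    rw [mem_ball_iff_norm] at hv
    have hv1 := (Complex.abs_im_le_norm (v - z)).trans hv.le
    have hv2 := (Complex.abs_re_le_norm (v - z)).trans hv.le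
    rw [Complex.sub_im, hz1] at hv1
    rw [Complex.sub_re] at hv2
    rw [abs_le] at hv2 hz2
    obtain ⟨q1, q2⟩ := h1 v.im hv1 v rfl (by rw [abs_le]; constructor <;> linarith [hv2.1, hv2.2])
      (by linarith [hv2.1]) (fun k hk => by
        have := hS k hk
        have := le_abs_self k
        have := neg_abs_le k
        rw [abs_le]
        constructor <;> linarith [hv2.1, hv2.2])
    refine ⟨q1, ?_⟩
    rw [hr]
    simp only
    rw [norm_div, norm_mul, norm_mul, div_le_iff₀ (mul_pos ha0 (norm_pos_iff.2 q1))]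
    have e1 : ‖a h‖ / 2 = Real.exp (Real.log (‖a h‖ / 2)) := by rw [Real.exp_log (by positivity)]
    have h5 : Real.exp (-(κ / 4) * Real.log v.im) ≤ ‖a h‖ / 2 := by
      rw [e1]
      apply Real.exp_le_exp.2
      linarith [h2 v.im hv1]
    have h6 : ‖ps S a v‖ ≤ ‖a h‖ / 2 * ‖XX (v + h)‖ := q2.trans (by gcongr)
    have h7 : ‖(1 / 2 : ℂ)‖ = 1 / 2 := by norm_num
    rw [h7]
    linarith
  have hzb : z ∈ Metric.ball z κ := Metric.mem_ball_self hκ
  obtain ⟨b1, b2⟩ := hball z hzb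
  have hrd : DifferentiableOn ℂ r (Metric.ball z κ) := by
    intro v hv
    rw [hr]
    have hX : DifferentiableAt ℂ (fun v : ℂ => XX (v + h)) v :=
      (XX_d.comp (differentiable_id.add_const _)).differentiableAt
    exact (((ps_diff S a).const_mul _).differentiableAt.div (hX.const_mul _)
      (mul_ne_zero ha (hball v hv).1)).differentiableWithinAt
  have hd1 : ‖deriv r z‖ ≤ 1 / 4 / (κ / 2) := by
    apply Complex.norm_deriv_le_of_forall_mem_sphere_norm_le (half_pos hκ)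
    · exact hrd.diffContOnCl_ball (Metric.closedBall_subset_ball (half_lt_self hκ))
    · intro v hv
      refine (hball v ?_).2
      rw [Metric.mem_ball]
      rw [Metric.mem_sphere] at hv
      linarith
  have h1r : 1 + r z ≠ 0 := by
    intro h0
    have : r z = -1 := by linear_combination h0
    rw [this, norm_neg, norm_one] at b2
    norm_num at b2
  have hAeq : AA S a h =ᶠ[𝓝 z] fun v => a h * XX (v + h) * (1 + r v) := by
    filter_upwards [Metric.ball_mem_nhds z hκ] with v hv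
    have := (hball v hv).1
    unfold AA
    rw [hr]
    simp only
    field_simp
  have hne : AA S a h z ≠ 0 := by
    rw [hAeq.eq_of_nhds]
    exact mul_ne_zero (mul_ne_zero ha b1) h1r
  refine ⟨hne, ?_⟩
  have hXd : HasDerivAt (fun v : ℂ => XX (v + h)) (deriv XX (z + h)) z := by
    have h5 : HasDerivAt (fun w : ℂ => w + (h : ℂ)) 1 z := (hasDerivAt_id _).add_const _
    have h6 := HasDerivAt.comp z (XX_d (z + h)).hasDerivAt h5
    rw [mul_one] at h6
    exact h6
  have hrd' : HasDerivAt r (deriv r z) z :=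
    (hrd.differentiableAt (Metric.ball_mem_nhds z hκ)).hasDerivAt
  have hAd : HasDerivAt (AA S a h) (a h * deriv XX (z + h) * (1 + r z) + a h * XX (z + h) * deriv r z) z := by
    refine HasDerivAt.congr_of_eventuallyEq ?_ hAeq
    exact (hXd.const_mul (a h)).mul (hrd'.const_add 1)
  have hld : logDeriv (AA S a h) z = logDeriv XX (z + h) + deriv r z / (1 + r z) := by
    rw [logDeriv_apply, hAd.deriv, hAeq.eq_of_nhds, logDeriv_apply]
    field_simp
  obtain ⟨-, c2, -⟩ := h3 (z + h) (by rw [add_im', hz1]) (by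
    rw [add_re']
    rw [abs_le] at hz2
    linarith [hz2.1]) (by
    rw [add_re']
    rw [abs_le] at hz2
    linarith [hz2.2])
  have c3 := (Complex.abs_re_le_norm _).trans c2
  rw [Complex.sub_re, Complex.ofReal_re, abs_le] at c3
  have h8 : 3 / 4 ≤ ‖1 + r z‖ := by
    have := norm_sub_le (1 + r z) (r z)
    rw [add_sub_cancel_right, norm_one] at this
    linarith
  have h9 : ‖deriv r z / (1 + r z)‖ ≤ 2 / (3 * κ) := by
    rw [norm_div, div_le_iff₀ (by linarith)]
    refine hd1.trans ?_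
    have : (1 : ℝ) / 4 / (κ / 2) = 2 / (3 * κ) * (3 / 4) := by field_simp
    rw [this]
    gcongr
  have h10 := (Complex.abs_re_le_norm _).trans h9
  rw [abs_le] at h10
  rw [hld, Complex.add_re]
  have h11 : 2 / (3 * κ) ≤ 1 / κ := by
    rw [div_le_div_iff₀ (by positivity) hκ]
    nlinarith
  have h12 : 8 / κ = 8 * (1 / κ) := by ring
  have h13 : 0 < 1 / κ := by positivity
  rw [h12] at hL
  linarith [c3.1, h10.1]

/-- all shifts -/
noncomputable def FF (a : ℝ →₀ ℂ) (z : ℂ) : ℂ := a.sum fun k c => c * XX (z + k)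

lemma FF_eq (a : ℝ →₀ ℂ) (z : ℂ) : FF a z = ps a.support a z := rfl

lemma FF_diff (a : ℝ →₀ ℂ) : Differentiable ℂ (FF a) := ps_diff a.support a

lemma FF_split {a : ℝ →₀ ℂ} {h : ℝ} (hh : h ∈ a.support) (z : ℂ) :
    FF a z = a h * XX (z + h) + ps (a.support.erase h) a z := by
  rw [FF_eq]
  unfold ps
  rw [← Finset.add_sum_erase _ _ hh]

lemma FF_Gs {a : ℝ →₀ ℂ} {h : ℝ} (hh : h ∈ a.support) (z : ℂ) :
    FF a z = Gs (a.support.erase h) a h (a h) (z + h) := by
  rw [FF_split hh]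
  unfold Gs
  rw [add_sub_cancel_right]

/-- conjugate coefficients -/
noncomputable def ca (a : ℝ →₀ ℂ) : ℝ →₀ ℂ := a.mapRange (starRingEnd ℂ) (map_zero _)

lemma ca_apply (a : ℝ →₀ ℂ) (k : ℝ) : ca a k = (starRingEnd ℂ) (a k) := by
  unfold ca
  rw [Finsupp.mapRange_apply]

lemma ca_support (a : ℝ →₀ ℂ) : (ca a).support = a.support := by
  ext k
  rw [Finsupp.mem_support_iff, Finsupp.mem_support_iff, ca_apply, Ne, map_eq_zero]

lemma FF_conj (a : ℝ →₀ ℂ) (z : ℂ) : FF (ca a) ((starRingEnd ℂ) z) = (starRingEnd ℂ) (FF a z) := by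
  rw [FF_eq, FF_eq]
  unfold ps
  rw [ca_support, map_sum]
  refine Finset.sum_congr rfl fun k _ => ?_
  rw [ca_apply, map_mul, ← XX_conj, map_add, Complex.conj_ofReal]

lemma XX_reflect (z : ℂ) (k : ℝ) : (starRingEnd ℂ) (XX (-((starRingEnd ℂ) z) + k)) = XX (z + ((-k : ℝ) : ℂ)) := by
  rw [← XX_conj, map_add, map_neg, Complex.conj_conj, Complex.conj_ofReal,
    ← Pool.Agent.H24R2.JP.B1h.XX_neg]
  congr 1
  push_cast
  ring

lemma ps_reflect {S : Finset ℝ} {a : ℝ → ℂ} {c : ℂ} (hS : ∀ k, -k ∈ S ↔ k ∈ S)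
    (hc : ∀ k, a (-k) = c * (starRingEnd ℂ) (a k)) (z : ℂ) :
    c * (starRingEnd ℂ) (ps S a (-((starRingEnd ℂ) z))) = ps S a z := by
  unfold ps
  rw [map_sum, Finset.mul_sum]
  refine Finset.sum_nbij' (fun k => -k) (fun k => -k) ?_ ?_ ?_ ?_ ?_
  · intro k hk; exact (hS k).2 hk
  · intro k hk; exact (hS k).2 hk
  · intro k _; exact neg_neg k
  · intro k _; exact neg_neg k
  · intro k _
    rw [map_mul, XX_reflect, ← mul_assoc, ← hc]

lemma FF_reflect {a : ℝ →₀ ℂ} {c : ℂ} (hc : ∀ k, a (-k) = c * (starRingEnd ℂ) (a k)) (hc0 : c ≠ 0) (z : ℂ) :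
    c * (starRingEnd ℂ) (FF a (-((starRingEnd ℂ) z))) = FF a z := by
  rw [FF_eq, FF_eq]
  refine ps_reflect (fun k => ?_) hc z
  rw [Finsupp.mem_support_iff, Finsupp.mem_support_iff, hc, Ne, Ne, mul_eq_zero, not_or]
  constructor
  · rintro ⟨-, h⟩ h0
    exact h (by rw [h0, map_zero])
  · intro h
    exact ⟨hc0, fun h0 => h ((map_eq_zero _).1 h0)⟩

/-- `F = A + c A*` -/
lemma FF_two {a : ℝ →₀ ℂ} {c : ℂ} {h : ℝ} (hc : ∀ k, a (-k) = c * (starRingEnd ℂ) (a k)) (hc0 : c ≠ 0)
    (hh : h ∈ a.support) (h0 : 0 < h) (z : ℂ) :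
    FF a z = AA ((a.support.erase h).erase (-h)) a h z +
      c * (starRingEnd ℂ) (AA ((a.support.erase h).erase (-h)) a h (-((starRingEnd ℂ) z))) := by
  have hsupp : ∀ k, -k ∈ a.support ↔ k ∈ a.support := by
    intro k
    rw [Finsupp.mem_support_iff, Finsupp.mem_support_iff, hc, Ne, Ne, mul_eq_zero, not_or]
    constructor
    · rintro ⟨-, h⟩ h0
      exact h (by rw [h0, map_zero])
    · intro h
      exact ⟨hc0, fun h0 => h ((map_eq_zero _).1 h0)⟩
  have hS : ∀ k, -k ∈ (a.support.erase h).erase (-h) ↔ k ∈ (a.support.erase h).erase (-h) := by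
    intro k
    rw [Finset.mem_erase, Finset.mem_erase, Finset.mem_erase, Finset.mem_erase, hsupp]
    constructor
    · rintro ⟨h1, h2, h3⟩
      exact ⟨fun h4 => h2 (by rw [h4, neg_neg]), fun h4 => h1 (by rw [h4]), h3⟩
    · rintro ⟨h1, h2, h3⟩
      exact ⟨fun h4 => h2 (neg_injective h4), fun h4 => h1 (by rw [← h4, neg_neg]), h3⟩
  have hmem : -h ∈ a.support.erase h :=
    Finset.mem_erase.2 ⟨by intro h4; linarith, (hsupp h).2 hh⟩
  have h1 : ps (a.support.erase h) a z = a (-h) * XX (z + ((-h : ℝ) : ℂ)) +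
      ps ((a.support.erase h).erase (-h)) a z := by
    unfold ps
    rw [← Finset.add_sum_erase _ _ hmem]
  rw [FF_split hh, h1]
  have h2 := ps_reflect (S := (a.support.erase h).erase (-h)) hS hc z
  unfold AA
  rw [map_add, map_mul, map_mul, mul_add, XX_reflect]
  have h3 : (starRingEnd ℂ) (1 / 2 : ℂ) = 1 / 2 := by
    rw [map_div₀, map_one, Complex.conj_ofNat]
  rw [h3, hc h]
  linear_combination (-1 / 2 : ℂ) * h2

/-- the local theorem -/
theorem on_line {y : ℝ} (hy : 0 ≤ y) (hy2 : y ≤ 1 / 2) (hZ : ZB y) {a : ℝ →₀ ℂ} {c : ℂ} {h : ℝ}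
    (hc : ∀ k, a (-k) = c * (starRingEnd ℂ) (a k)) (hc1 : ‖c‖ = 1) (hh : h ∈ a.support)
    (hmax : ∀ k ∈ a.support, |k| ≤ h) (hyh : y < h) (R : ℝ) :
    ∀ᶠ t : ℝ in atTop, ∀ z : ℂ, z.im = t → |z.re| ≤ R → FF a z = 0 → z.re = 0 ∧ deriv (FF a) z ≠ 0 := by
  have h0 : 0 < h := by linarith
  have hc0 : c ≠ 0 := by
    intro h; rw [h, norm_zero] at hc1; norm_num at hc1
  have hah : a h ≠ 0 := Finsupp.mem_support_iff.1 hh
  obtain ⟨S, hSdef⟩ : ∃ S : Finset ℝ, S = (a.support.erase h).erase (-h) := ⟨_, rfl⟩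
  have hSlt : ∀ k ∈ S, |k| < h := by
    intro k hk
    rw [hSdef, Finset.mem_erase, Finset.mem_erase] at hk
    refine lt_of_le_of_ne (hmax k hk.2.2) fun h4 => ?_
    rcases abs_choice k with h5 | h5
    · exact hk.2.1 (by rw [← h5, h4])
    · exact hk.1 (by rw [← h4, h5, neg_neg])
  obtain ⟨κ, hκ, hκy, hκS⟩ : ∃ κ : ℝ, 0 < κ ∧ y + 6 * κ ≤ h ∧ ∀ k ∈ S, |k| + 6 * κ ≤ h := by
    have : ∃ m : ℝ, m < h ∧ y ≤ m ∧ ∀ k ∈ S, |k| ≤ m := by
      clear hSdef hc hmax
      induction S using Finset.induction_on with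
      | empty => exact ⟨y, hyh, le_rfl, fun k hk => absurd hk (Finset.notMem_empty k)⟩
      | insert s S _ ih =>
        obtain ⟨m, q1, q2, q3⟩ := ih fun k hk => hSlt k (Finset.mem_insert_of_mem hk)
        refine ⟨max m |s|, max_lt q1 (hSlt s (Finset.mem_insert_self s S)), q2.trans (le_max_left _ _),
          fun k hk => ?_⟩
        rcases Finset.mem_insert.1 hk with rfl | hk
        · exact le_max_right _ _
        · exact (q3 k hk).trans (le_max_left _ _)
    obtain ⟨m, q1, q2, q3⟩ := this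
    exact ⟨(h - m) / 6, by linarith, by linarith, fun k hk => by linarith [q3 k hk]⟩
  have ha0 : 0 < ‖a h‖ := norm_pos_iff.2 hah
  filter_upwards [AA_ld hy hy2 hZ S a h κ hκ hκy hκS hah, dom hy hy2 hZ (a.support.erase h) a h R κ hκ,
    ev_mul (-Real.log (‖a h‖ / 2)) (κ / 4) (by linarith)] with t h1 h2 h3 z hz1 hz2 hz3
  -- away from the line, to the right
  have hright : ∀ z : ℂ, z.im = t → κ ≤ z.re → z.re ≤ R → FF a z ≠ 0 := by
    intro z hz1 hz2 hz3
    obtain ⟨q1, q2⟩ := h2 z hz1 (by rw [abs_of_nonneg (by linarith)]; exact hz3) (by linarith) (fun k hk => by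
      rw [abs_le]
      by_cases hk' : k = -h
      · rw [hk']
        constructor <;> linarith
      · have := hκS k (by rw [hSdef]; exact Finset.mem_erase.2 ⟨hk', hk⟩)
        have := le_abs_self k
        have := neg_abs_le k
        constructor <;> linarith)
    rw [FF_split hh]
    refine norm_lt_of_small q1 (r := ‖a h‖ / 2) (by linarith) (q2.trans ?_)
    have e1 : ‖a h‖ / 2 = Real.exp (Real.log (‖a h‖ / 2)) := by rw [Real.exp_log (by positivity)]
    rw [e1]
    gcongr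
    linarith
  -- near the line, to the right
  have hnear : ∀ z : ℂ, z.im = t → 0 < z.re → z.re ≤ κ → FF a z ≠ 0 := by
    intro z hz1 hz2 hz3 hz4
    have hdec := Pool.Agent.W186.DX.decay (g := fun v : ℝ => AA S a h (z - v))
      (c := fun v : ℝ => -(logDeriv (AA S a h) (z - v))) (a := 1) (V := 2 * z.re) (by
        intro v hv
        have hv' : |(z - (v : ℂ)).re| ≤ κ := by
          rw [Complex.sub_re, Complex.ofReal_re, abs_le]
          constructor <;> linarith [hv.1, hv.2]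
        have hne := (h1 (z - v) (by simp [hz1]) hv').1
        have e1 : HasDerivAt (fun v : ℝ => z - (v : ℂ)) (-1) v := by
          simpa using (hasDerivAt_id v).ofReal_comp.const_sub z
        have e2 := HasDerivAt.comp v (AA_diff S a h (z - v)).hasDerivAt e1
        refine e2.congr_deriv ?_
        rw [logDeriv_apply]
        field_simp) (by
        intro v hv
        have hv' : |(z - (v : ℂ)).re| ≤ κ := by
          rw [Complex.sub_re, Complex.ofReal_re, abs_le]
          constructor <;> linarith [hv.1, hv.2]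
        have := (h1 (z - v) (by simp [hz1]) hv').2
        simp only [Complex.neg_re]
        linarith) (2 * z.re) ⟨by linarith, le_rfl⟩
    have e3 : z - ((2 * z.re : ℝ) : ℂ) = -((starRingEnd ℂ) z) := by
      apply Complex.ext
      · simp; ring
      · simp
    rw [e3, Complex.ofReal_zero, sub_zero] at hdec
    have hAz := norm_pos_iff.2 (h1 z hz1 (by rw [abs_of_pos hz2]; exact hz3)).1
    have h5 : Real.exp (-(1 * (2 * z.re))) < 1 := by
      rw [Real.exp_lt_one_iff]
      linarith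
    rw [FF_two hc hc0 hh h0, ← hSdef] at hz4
    have h6 : AA S a h z = -(c * (starRingEnd ℂ) (AA S a h (-((starRingEnd ℂ) z)))) :=
      eq_neg_of_add_eq_zero_left hz4
    have h7 := congrArg norm h6
    rw [norm_neg, norm_mul, hc1, one_mul, RCLike.norm_conj] at h7
    nlinarith
  have hall : ∀ z : ℂ, z.im = t → 0 < z.re → z.re ≤ R → FF a z ≠ 0 := by
    intro z q1 q2 q3
    rcases le_total κ z.re with q4 | q4
    · exact hright z q1 q4 q3
    · exact hnear z q1 q2 q4
  have hre0 : z.re = 0 := by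
    rcases lt_trichotomy z.re 0 with h4 | h4 | h4
    · exfalso
      refine hall (-((starRingEnd ℂ) z)) (by rw [refl_im]; exact hz1) (by rw [refl_re]; linarith)
        (by rw [refl_re]; rw [abs_le] at hz2; linarith [hz2.1]) ?_
      rw [← FF_reflect hc hc0, mul_eq_zero] at hz3
      exact (map_eq_zero _).1 (hz3.resolve_left hc0)
    · exact h4
    · exact absurd hz3 (hall z hz1 h4 ((le_abs_self _).trans hz2))
  refine ⟨hre0, ?_⟩
  have hzz : -((starRingEnd ℂ) z) = z := by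
    apply Complex.ext
    · simp [hre0]
    · simp
  obtain ⟨g1, g2⟩ := h1 z hz1 (by rw [hre0, abs_zero]; exact hκ.le)
  have hder : HasDerivAt (fun w => AA S a h w + c * (starRingEnd ℂ) (AA S a h (-((starRingEnd ℂ) w))))
      (deriv (AA S a h) z + c * (-((starRingEnd ℂ) (deriv (AA S a h) z)))) z := by
    have e1 : HasDerivAt (AA S a h) (deriv (AA S a h) z) z := (AA_diff S a h z).hasDerivAt
    have e2 : HasDerivAt (⇑(starRingEnd ℂ) ∘ AA S a h ∘ ⇑(starRingEnd ℂ))
        ((starRingEnd ℂ) (deriv (AA S a h) z)) (-z) := by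
      have e3 : HasDerivAt (AA S a h) (deriv (AA S a h) z) (-((starRingEnd ℂ) z)) := by rw [hzz]; exact e1
      have e4 := e3.conj_conj
      rw [map_neg, Complex.conj_conj] at e4
      exact e4
    obtain ⟨B, hB⟩ : ∃ B : ℂ → ℂ, B = (⇑(starRingEnd ℂ) ∘ AA S a h ∘ ⇑(starRingEnd ℂ)) := ⟨_, rfl⟩
    rw [← hB] at e2
    have e5 : HasDerivAt (fun w : ℂ => B (-w)) ((starRingEnd ℂ) (deriv (AA S a h) z) * (-1)) z :=
      HasDerivAt.comp z e2 (hasDerivAt_neg z)
    have e6 : (fun w : ℂ => B (-w)) = fun w => (starRingEnd ℂ) (AA S a h (-((starRingEnd ℂ) w))) := by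
      funext w
      rw [hB]
      simp only [Function.comp, map_neg]
    rw [e6, mul_neg_one] at e5
    exact e1.add (e5.const_mul c)
  have hFF : FF a = fun w => AA S a h w + c * (starRingEnd ℂ) (AA S a h (-((starRingEnd ℂ) w))) := by
    funext w
    rw [FF_two hc hc0 hh h0, ← hSdef]
  rw [hFF, hder.deriv]
  rw [hFF] at hz3
  simp only [hzz] at hz3
  -- with `q = A' / A`
  obtain ⟨q, hq⟩ : ∃ q : ℂ, q = logDeriv (AA S a h) z := ⟨_, rfl⟩
  have hA' : deriv (AA S a h) z = q * AA S a h z := by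
    rw [hq, logDeriv_apply]
    field_simp
  rw [← hq] at g2
  have h9 : deriv (AA S a h) z + c * (-((starRingEnd ℂ) (deriv (AA S a h) z))) =
      (q + (starRingEnd ℂ) q) * AA S a h z := by
    rw [hA', map_mul]
    linear_combination (-(starRingEnd ℂ) q) * hz3
  rw [h9]
  refine mul_ne_zero ?_ g1
  rw [Complex.add_conj]
  intro h10
  have h11 : (2 * q.re : ℝ) = 0 := by exact_mod_cast h10
  linarith

end Pool.Agent.Run7.h508.Sh
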