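import Pool.Agent.H24R2.DZ.XB

set_option autoImplicit false

/-!
# The xi function far to the right: uniform decay of the ratios of shifts
-/

namespace Pool.Agent.Run7.h508.Sh

open Complex Filter Topology Set
open Pool.Agent.H24R2.JP (XX HH)

lemma beta_norm_le {u v : ℂ} : ‖betaIntegral u v‖ ≤ ‖betaIntegral (u.re : ℂ) (v.re : ℂ)‖ := by
  have h1 : ∀ x ∈ Ioo (0 : ℝ) 1, ‖(x : ℂ) ^ (u - 1) * (1 - (x : ℂ)) ^ (v - 1)‖ =
      x ^ (u.re - 1) * (1 - x) ^ (v.re - 1) := by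
    intro x hx
    rw [norm_mul, Complex.norm_cpow_eq_rpow_re_of_pos hx.1]
    have e : (1 - (x : ℂ)) = ((1 - x : ℝ) : ℂ) := by push_cast; ring
    rw [e, Complex.norm_cpow_eq_rpow_re_of_pos (by linarith [hx.2])]
    simp
  have h2 : ∀ x ∈ Ioo (0 : ℝ) 1, (x : ℂ) ^ ((u.re : ℂ) - 1) * (1 - (x : ℂ)) ^ ((v.re : ℂ) - 1) =
      ((x ^ (u.re - 1) * (1 - x) ^ (v.re - 1) : ℝ) : ℂ) := by
    intro x hx
    have e : (1 - (x : ℂ)) = ((1 - x : ℝ) : ℂ) := by push_cast; ring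
    rw [e]
    push_cast
    rw [Complex.ofReal_cpow hx.1.le, Complex.ofReal_cpow (by linarith [hx.2])]
    push_cast
    rfl
  have h3 : betaIntegral (u.re : ℂ) (v.re : ℂ) =
      ((∫ x in (0 : ℝ)..1, x ^ (u.re - 1) * (1 - x) ^ (v.re - 1) : ℝ) : ℂ) := by
    unfold betaIntegral
    rw [← intervalIntegral.integral_ofReal]
    rw [intervalIntegral.integral_of_le zero_le_one, intervalIntegral.integral_of_le zero_le_one,
      MeasureTheory.integral_Ioc_eq_integral_Ioo, MeasureTheory.integral_Ioc_eq_integral_Ioo]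
    exact MeasureTheory.setIntegral_congr_fun measurableSet_Ioo h2
  have h4 : ∫ x in (0 : ℝ)..1, ‖(x : ℂ) ^ (u - 1) * (1 - (x : ℂ)) ^ (v - 1)‖ =
      ∫ x in (0 : ℝ)..1, x ^ (u.re - 1) * (1 - x) ^ (v.re - 1) := by
    rw [intervalIntegral.integral_of_le zero_le_one, intervalIntegral.integral_of_le zero_le_one,
      MeasureTheory.integral_Ioc_eq_integral_Ioo, MeasureTheory.integral_Ioc_eq_integral_Ioo]
    exact MeasureTheory.setIntegral_congr_fun measurableSet_Ioo h1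
  rw [h3, Complex.norm_real, Real.norm_eq_abs]
  refine le_trans ?_ (le_abs_self _)
  rw [← h4]
  exact intervalIntegral.norm_integral_le_integral_norm zero_le_one

lemma gam_ratio {v : ℂ} {γ : ℝ} (hγ : 0 < γ) (hv : γ < v.re) :
    ‖Gamma (v - γ)‖ * Real.Gamma v.re ≤ ‖Gamma v‖ * Real.Gamma (v.re - γ) := by
  have h1 := Complex.Gamma_mul_Gamma_eq_betaIntegral (s := v - γ) (t := γ)
    (by simp; exact hv) (by simpa using hγ)
  have h2 := Complex.Gamma_mul_Gamma_eq_betaIntegral (s := ((v.re - γ : ℝ) : ℂ)) (t := γ)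
    (by simp; exact hv) (by simpa using hγ)
  have e1 : v - γ + γ = v := by ring
  have e2 : ((v.re - γ : ℝ) : ℂ) + γ = (v.re : ℂ) := by push_cast; ring
  rw [e1] at h1
  rw [e2] at h2
  have h3 := congrArg norm h1
  have h4 := congrArg norm h2
  rw [norm_mul, norm_mul] at h3 h4
  have h5 := beta_norm_le (u := v - γ) (v := γ)
  have e3 : (((v - γ).re : ℝ) : ℂ) = ((v.re - γ : ℝ) : ℂ) := by simp
  have e4 : (((γ : ℂ).re : ℝ) : ℂ) = (γ : ℂ) := by simp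
  rw [e3, e4] at h5
  rw [Complex.Gamma_ofReal, Complex.Gamma_ofReal, Complex.Gamma_ofReal, Complex.norm_real,
    Complex.norm_real, Complex.norm_real, Real.norm_eq_abs, Real.norm_eq_abs, Real.norm_eq_abs,
    abs_of_pos (Real.Gamma_pos_of_pos hγ), abs_of_pos (Real.Gamma_pos_of_pos (by linarith)),
    abs_of_pos (Real.Gamma_pos_of_pos (by linarith : 0 < v.re))] at h4
  rw [Complex.Gamma_ofReal, Complex.norm_real, Real.norm_eq_abs, abs_of_pos (Real.Gamma_pos_of_pos hγ)]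
    at h3
  have hg := Real.Gamma_pos_of_pos hγ
  have hg2 := Real.Gamma_pos_of_pos (by linarith : 0 < v.re)
  have hb : ‖betaIntegral ((v.re - γ : ℝ) : ℂ) γ‖ = Real.Gamma (v.re - γ) * Real.Gamma γ / Real.Gamma v.re := by
    rw [eq_div_iff hg2.ne', mul_comm, ← h4]
  have h6 : ‖Gamma (v - γ)‖ * Real.Gamma γ ≤
      ‖Gamma v‖ * (Real.Gamma (v.re - γ) * Real.Gamma γ / Real.Gamma v.re) := by
    rw [h3, ← hb]
    gcongr
  have h7 : ‖Gamma v‖ * (Real.Gamma (v.re - γ) * Real.Gamma γ / Real.Gamma v.re) =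
      (‖Gamma v‖ * Real.Gamma (v.re - γ) / Real.Gamma v.re) * Real.Gamma γ := by ring
  rw [h7] at h6
  have h8 := le_of_mul_le_mul_right h6 hg
  rwa [le_div_iff₀ hg2] at h8

lemma real_ratio {γ ε : ℝ} (hγ : 0 < γ) (hε : 0 < ε) : ∃ X : ℝ, γ + 2 ≤ X ∧ ∀ x : ℝ, X ≤ x →
    Real.Gamma (x - γ) ≤ ε * Real.Gamma x := by
  obtain ⟨g, hg⟩ : ∃ g : ℝ, g = min γ (1 / 2) := ⟨_, rfl⟩
  have hg0 : 0 < g := by rw [hg]; exact lt_min hγ (by norm_num)
  have hg1 : g ≤ γ := by rw [hg]; exact min_le_left _ _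
  have hg2 : g ≤ 1 / 2 := by rw [hg]; exact min_le_right _ _
  have hT : Tendsto (fun x : ℝ => (x - 1) ^ (-g)) atTop (𝓝 0) :=
    (tendsto_rpow_neg_atTop hg0).comp (tendsto_atTop_add_const_right atTop (-1 : ℝ) tendsto_id)
  obtain ⟨X1, hX1⟩ := eventually_atTop.1 (hT.eventually (ge_mem_nhds hε))
  refine ⟨max (γ + 2) X1, le_max_left _ _, fun x hx => ?_⟩
  have h1 : γ + 2 ≤ x := (le_max_left _ _).trans hx
  have h2 := hX1 x ((le_max_right _ _).trans hx)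
  have hx1 : 0 < x - 1 := by linarith
  have hG : 0 < Real.Gamma x := Real.Gamma_pos_of_pos (by linarith)
  have h3 : Real.Gamma (x - γ) ≤ Real.Gamma (x - g) :=
    Real.Gamma_strictMonoOn_Ici.monotoneOn (by simp; linarith) (by simp; linarith) (by linarith)
  have h4 := Real.Gamma_mul_add_mul_le_rpow_Gamma_mul_rpow_Gamma (s := x - 1) (t := x) (a := g) (b := 1 - g)
    hx1 (by linarith) hg0 (by linarith) (by ring)
  have e1 : g * (x - 1) + (1 - g) * x = x - g := by ring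
  rw [e1] at h4
  have h5 : Real.Gamma (x - 1) = Real.Gamma x / (x - 1) := by
    have := Real.Gamma_add_one (s := x - 1) hx1.ne'
    rw [sub_add_cancel] at this
    rw [this, mul_div_cancel_left₀ _ hx1.ne']
  have h6 : Real.Gamma (x - 1) ^ g * Real.Gamma x ^ (1 - g) = (x - 1) ^ (-g) * Real.Gamma x := by
    rw [h5, Real.div_rpow hG.le hx1.le, div_mul_eq_mul_div, ← Real.rpow_add hG, add_sub_cancel,
      Real.rpow_one, Real.rpow_neg hx1.le]
    field_simp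
  rw [h6] at h4
  exact h3.trans (h4.trans (by gcongr))

lemma XX_right {w : ℂ} (hw : 1 / 2 < w.re) : XX w = HH w * riemannZeta (1 / 2 + w) := by
  have hre : (1 / 2 + w : ℂ).re = 1 / 2 + w.re := by simp
  have hs0 : (1 / 2 + w : ℂ) ≠ 0 := by
    intro h
    rw [h] at hre
    simp at hre
    linarith
  have hs1 : (1 - (1 / 2 + w) : ℂ) ≠ 0 := by
    intro h
    have h2 := congrArg Complex.re h
    rw [Complex.sub_re, hre] at h2
    simp at h2
    linarith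
  have hG : Gammaℝ (1 / 2 + w) ≠ 0 := Complex.Gammaℝ_ne_zero_of_re_pos (by rw [hre]; linarith)
  unfold XX HH
  rw [riemannZeta_def_of_ne_zero hs0, completedRiemannZeta_eq]
  have e1 : ∀ (A G L : ℂ), G ≠ 0 → A * G * (L / G) = A * L := by
    intro A G L hG'
    field_simp
  rw [e1 _ _ _ hG]
  obtain ⟨a, ha⟩ : ∃ a : ℂ, a = 1 / (1 / 2 + w) := ⟨_, rfl⟩
  obtain ⟨b, hb⟩ : ∃ b : ℂ, b = 1 / (1 - (1 / 2 + w)) := ⟨_, rfl⟩
  have ha1 : (1 / 2 + w) * a = 1 := by rw [ha]; exact mul_one_div_cancel hs0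
  have hb1 : (1 - (1 / 2 + w)) * b = 1 := by rw [hb]; exact mul_one_div_cancel hs1
  rw [← ha, ← hb]
  linear_combination 4 * ((1 / 2 + w) - 1) * ha1 - 4 * (1 / 2 + w) * hb1

lemma norm_shift_le {w : ℂ} {p g : ℝ} (hg : 0 ≤ g) (h : g ≤ 2 * (w.re - p)) : ‖w - g - p‖ ≤ ‖w - p‖ := by
  rw [Complex.norm_eq_sqrt_sq_add_sq, Complex.norm_eq_sqrt_sq_add_sq]
  apply Real.sqrt_le_sqrt
  have e1 : (w - g - p).re = w.re - p - g := by simp; ring
  have e2 : (w - g - p).im = w.im := by simp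
  have e3 : (w - p).re = w.re - p := by simp
  have e4 : (w - p).im = w.im := by simp
  rw [e1, e2, e3, e4]
  nlinarith

/-- Far to the right, a shift to the left makes xi much smaller, uniformly in the height. -/
theorem far (g ε : ℝ) (hg : 0 < g) (hε : 0 < ε) : ∃ X0 : ℝ, ∀ w : ℂ, X0 ≤ w.re →
    XX w ≠ 0 ∧ ‖XX (w - g)‖ ≤ ε * ‖XX w‖ := by
  obtain ⟨ε1, hε1⟩ : ∃ ε1 : ℝ, ε1 = ε / (3 * Real.pi ^ (g / 2)) := ⟨_, rfl⟩
  have hpi : 0 < Real.pi ^ (g / 2) := Real.rpow_pos_of_pos Real.pi_pos _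
  have h10 : 0 < ε1 := by rw [hε1]; positivity
  obtain ⟨X, hX, hr⟩ := real_ratio (γ := g / 2) (half_pos hg) h10
  refine ⟨2 * X + g + 4, fun w hw => ?_⟩
  have hw1 : 1 / 2 < w.re := by linarith
  have hw2 : 1 / 2 < (w - g).re := by simp; linarith
  have hG : Gammaℝ (1 / 2 + w) ≠ 0 := Complex.Gammaℝ_ne_zero_of_re_pos (by simp; linarith)
  have hz1 := Pool.Agent.H24R2.DZ.XBAux.z1 (s := 1 / 2 + w) (by simp; linarith)
  have hz2 := Pool.Agent.H24R2.DZ.XBAux.z1 (s := 1 / 2 + (w - g)) (by simp; linarith)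
  have hz1' : 1 / 2 ≤ ‖riemannZeta (1 / 2 + w)‖ := by
    have := norm_sub_norm_le (1 : ℂ) (1 - riemannZeta (1 / 2 + w))
    rw [sub_sub_cancel, norm_one, norm_sub_rev] at this
    linarith
  have hz2' : ‖riemannZeta (1 / 2 + (w - g))‖ ≤ 3 / 2 := by
    have := norm_add_le (riemannZeta (1 / 2 + (w - g)) - 1) 1
    rw [sub_add_cancel, norm_one] at this
    linarith
  have hfac : ∀ z : ℂ, (4 * z ^ 2 - 1 : ℂ) = 4 * ((z - ((1 / 2 : ℝ) : ℂ)) * (z - ((-(1 / 2) : ℝ) : ℂ))) := by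
    intro z; push_cast; ring
  have hH : ∀ z : ℂ, ‖HH z‖ = 4 * (‖z - ((1 / 2 : ℝ) : ℂ)‖ * ‖z - ((-(1 / 2) : ℝ) : ℂ)‖) *
      ‖Gammaℝ (1 / 2 + z)‖ := by
    intro z
    unfold HH
    rw [hfac, norm_mul, norm_mul, norm_mul]
    norm_num
  have hne : ∀ p : ℝ, p < w.re → 0 < ‖w - (p : ℂ)‖ := by
    intro p hp
    rw [norm_pos_iff]
    intro h
    have := congrArg Complex.re h
    simp at this
    linarith
  have hHpos : 0 < ‖HH w‖ := by
    rw [hH]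
    have := hne (1 / 2) (by linarith)
    have := hne (-(1 / 2)) (by linarith)
    have := norm_pos_iff.2 hG
    positivity
  rw [XX_right hw1, XX_right hw2, norm_mul, norm_mul]
  refine ⟨mul_ne_zero (norm_pos_iff.1 hHpos) (by intro h; rw [h, norm_zero] at hz1'; linarith), ?_⟩
  -- the gamma factor
  have hGR : ‖Gammaℝ (1 / 2 + (w - g))‖ ≤ Real.pi ^ (g / 2) * ε1 * ‖Gammaℝ (1 / 2 + w)‖ := by
    obtain ⟨v, hv⟩ : ∃ v : ℂ, v = (1 / 2 + w) / 2 := ⟨_, rfl⟩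
    have hvre : v.re = (1 / 2 + w.re) / 2 := by rw [hv]; simp
    have e1 : (1 / 2 + (w - g)) / 2 = v - ((g / 2 : ℝ) : ℂ) := by rw [hv]; push_cast; ring
    have h1 := gam_ratio (v := v) (half_pos hg) (by rw [hvre]; linarith)
    have h2 := hr v.re (by rw [hvre]; linarith)
    have hp : 0 < Real.Gamma v.re := Real.Gamma_pos_of_pos (by rw [hvre]; linarith)
    have h3 : ‖Gamma (v - ((g / 2 : ℝ) : ℂ))‖ ≤ ε1 * ‖Gamma v‖ := by
      have h4 : ‖Gamma (v - ((g / 2 : ℝ) : ℂ))‖ * Real.Gamma v.re ≤ (ε1 * ‖Gamma v‖) * Real.Gamma v.re := by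
        refine h1.trans ?_
        calc ‖Gamma v‖ * Real.Gamma (v.re - g / 2) ≤ ‖Gamma v‖ * (ε1 * Real.Gamma v.re) := by gcongr
          _ = _ := by ring
      exact le_of_mul_le_mul_right h4 hp
    rw [Gammaℝ_def, Gammaℝ_def, norm_mul, norm_mul, e1, ← hv]
    have hpi0 : (Real.pi : ℂ) = ((Real.pi : ℝ) : ℂ) := rfl
    rw [Complex.norm_cpow_eq_rpow_re_of_pos Real.pi_pos, Complex.norm_cpow_eq_rpow_re_of_pos Real.pi_pos]
    have e2 : (-(1 / 2 + (w - g)) / 2 : ℂ).re = (-(1 / 2 + w) / 2 : ℂ).re + g / 2 := by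
      have : (-(1 / 2 + (w - g)) / 2 : ℂ) = -(1 / 2 + w) / 2 + ((g / 2 : ℝ) : ℂ) := by push_cast; ring
      rw [this, Complex.add_re, Complex.ofReal_re]
    rw [e2, Real.rpow_add Real.pi_pos]
    calc Real.pi ^ (-(1 / 2 + w) / 2 : ℂ).re * Real.pi ^ (g / 2) * ‖Gamma (v - ((g / 2 : ℝ) : ℂ))‖
        ≤ Real.pi ^ (-(1 / 2 + w) / 2 : ℂ).re * Real.pi ^ (g / 2) * (ε1 * ‖Gamma v‖) := by gcongr
      _ = _ := by ring
  have hHle : ‖HH (w - g)‖ ≤ Real.pi ^ (g / 2) * ε1 * ‖HH w‖ := by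
    rw [hH, hH]
    have a1 := norm_shift_le (w := w) (p := 1 / 2) hg.le (by linarith)
    have a2 := norm_shift_le (w := w) (p := -(1 / 2)) hg.le (by linarith)
    calc 4 * (‖w - g - ((1 / 2 : ℝ) : ℂ)‖ * ‖w - g - ((-(1 / 2) : ℝ) : ℂ)‖) * ‖Gammaℝ (1 / 2 + (w - g))‖
        ≤ 4 * (‖w - ((1 / 2 : ℝ) : ℂ)‖ * ‖w - ((-(1 / 2) : ℝ) : ℂ)‖) *
          (Real.pi ^ (g / 2) * ε1 * ‖Gammaℝ (1 / 2 + w)‖) := by gcongr
      _ = _ := by ring
  have e5 : Real.pi ^ (g / 2) * ε1 = ε / 3 := by rw [hε1]; field_simp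
  rw [e5] at hHle
  calc ‖HH (w - g)‖ * ‖riemannZeta (1 / 2 + (w - g))‖ ≤ (ε / 3 * ‖HH w‖) * (3 / 2) := by gcongr
    _ = ε * (‖HH w‖ * (1 / 2)) := by ring
    _ ≤ _ := by gcongr

end Pool.Agent.Run7.h508.Sh
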