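import Pool.Agent.Run7.h508.Sh.Bd
import Pool.Agent.Run7.h508.Sh.Far

set_option autoImplicit false

/-!
# Finite combinations of shifts of xi: dominance of one term
-/

namespace Pool.Agent.Run7.h508.Sh

open Complex Filter Topology Set Finset
open Pool.Agent.H24R2.JP (XX HH Om)
open Pool.Agent.H986R2.K4 (ZB)
open Pool.Agent.Run7.h508.Sp (point ev_large ev_win ev_log XX_refl XX_conj)

/-- partial sums -/
noncomputable def ps (S : Finset ℝ) (a : ℝ → ℂ) (z : ℂ) : ℂ := ∑ k ∈ S, a k * XX (z + k)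

lemma XX_d : Differentiable ℂ XX := Pool.Agent.H24R2.JP.B1h.XX_diff

lemma ps_diff (S : Finset ℝ) (a : ℝ → ℂ) : Differentiable ℂ (ps S a) := by
  unfold ps
  apply Differentiable.fun_sum
  intro k _
  exact (XX_d.comp (differentiable_id.add_const _)).const_mul _

lemma add_re' (z : ℂ) (k : ℝ) : (z + k).re = z.re + k := by simp
lemma add_im' (z : ℂ) (k : ℝ) : (z + k).im = z.im := by simp

/-- bound for partial sums -/
lemma ps_up {y : ℝ} (hy : 0 ≤ y) (hy2 : y ≤ 1 / 2) (hZ : ZB y) (S : Finset ℝ) (a : ℝ → ℂ) (R ε : ℝ)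
    (hε : 0 < ε) : ∀ᶠ t : ℝ in atTop, ∀ z : ℂ, z.im = t → |z.re| ≤ R → ∀ E : ℝ,
      (∀ k ∈ S, |z.re + k| ≤ E ∧ y ≤ E) →
      ‖ps S a z‖ ≤ ‖HH (I * t)‖ * Real.exp ((E / 2 + ε) * Real.log t) := by
  obtain ⟨M, hM⟩ : ∃ M : ℝ, M = ∑ k ∈ S, ‖a k‖ := ⟨_, rfl⟩
  obtain ⟨R', hR'⟩ : ∃ R' : ℝ, R' = R + ∑ k ∈ S, |k| := ⟨_, rfl⟩
  have hM0 : 0 ≤ M := by rw [hM]; exact Finset.sum_nonneg fun k _ => norm_nonneg _
  filter_upwards [up hy hy2 hZ R' (ε / 2) (by linarith), ev_mul (Real.log (M + 1)) (ε / 2) (by linarith),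
    ev_large 1] with t h1 h2 hL z hz1 hz2 E hE
  have h3 : ∀ k ∈ S, ‖a k * XX (z + k)‖ ≤ ‖a k‖ * (‖HH (I * t)‖ * Real.exp ((E / 2 + ε / 2) * Real.log t)) := by
    intro k hk
    rw [norm_mul]
    have hkR : |k| ≤ ∑ k ∈ S, |k| := Finset.single_le_sum (f := fun k : ℝ => |k|) (fun i _ => abs_nonneg i) hk
    have h4 := h1 (z + k) (by rw [add_im', hz1]) (by
      rw [add_re', hR']
      exact (abs_add_le _ _).trans (by linarith))
    rw [add_re'] at h4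
    refine mul_le_mul_of_nonneg_left (h4.trans ?_) (norm_nonneg _)
    gcongr
    exact max_le (hE k hk).1 (hE k hk).2
  calc ‖ps S a z‖ ≤ ∑ k ∈ S, ‖a k * XX (z + k)‖ := norm_sum_le _ _
    _ ≤ ∑ k ∈ S, ‖a k‖ * (‖HH (I * t)‖ * Real.exp ((E / 2 + ε / 2) * Real.log t)) := Finset.sum_le_sum h3
    _ = M * (‖HH (I * t)‖ * Real.exp ((E / 2 + ε / 2) * Real.log t)) := by rw [← Finset.sum_mul, hM]
    _ ≤ Real.exp (Real.log (M + 1)) * (‖HH (I * t)‖ * Real.exp ((E / 2 + ε / 2) * Real.log t)) := by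
        gcongr
        rw [Real.exp_log (by linarith)]
        linarith
    _ = ‖HH (I * t)‖ * Real.exp (Real.log (M + 1) + (E / 2 + ε / 2) * Real.log t) := by
        rw [Real.exp_add]; ring
    _ ≤ _ := by
        gcongr
        nlinarith

/-- dominance of the term with the shift `h` -/
lemma dom {y : ℝ} (hy : 0 ≤ y) (hy2 : y ≤ 1 / 2) (hZ : ZB y) (S : Finset ℝ) (a : ℝ → ℂ) (h R κ : ℝ)
    (hκ : 0 < κ) : ∀ᶠ t : ℝ in atTop, ∀ z : ℂ, z.im = t → |z.re| ≤ R → y + κ ≤ z.re + h →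
      (∀ k ∈ S, |z.re + k| ≤ z.re + h - κ) →
      XX (z + h) ≠ 0 ∧ ‖ps S a z‖ ≤ Real.exp (-(κ / 4) * Real.log t) * ‖XX (z + h)‖ := by
  filter_upwards [ps_up hy hy2 hZ S a R (κ / 8) (by linarith),
    low hy hZ κ (R + |h|) (κ / 8) hκ (by linarith), ev_large 1] with t h1 h2 hL z hz1 hz2 hz3 hz4
  have h3 := h2 (z + h) (by rw [add_im', hz1]) (by rw [add_re']; exact hz3) (by
    rw [add_re']
    have := le_abs_self z.re
    have := le_abs_self h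
    linarith)
  refine ⟨h3.1, ?_⟩
  have h4 := h1 z hz1 hz2 (z.re + h - κ) (fun k hk => ⟨hz4 k hk, by linarith⟩)
  have h5 := h3.2.2.1
  rw [add_re'] at h5
  calc ‖ps S a z‖ ≤ ‖HH (I * t)‖ * Real.exp (((z.re + h - κ) / 2 + κ / 8) * Real.log t) := h4
    _ ≤ ‖HH (I * t)‖ * Real.exp (-(κ / 4) * Real.log t + ((z.re + h) / 2 - κ / 8) * Real.log t) := by
        gcongr
        nlinarith
    _ = Real.exp (-(κ / 4) * Real.log t) * (‖HH (I * t)‖ * Real.exp (((z.re + h) / 2 - κ / 8) * Real.log t)) := by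
        rw [Real.exp_add]; ring
    _ ≤ _ := by gcongr

/-- far to the right -/
lemma farps (S : Finset ℝ) (a : ℝ → ℂ) (h ε : ℝ) (hS : ∀ k ∈ S, k < h) (hε : 0 < ε) : ∃ X0 : ℝ,
    ∀ z : ℂ, X0 ≤ z.re → XX (z + h) ≠ 0 ∧ ‖ps S a z‖ ≤ ε * ‖XX (z + h)‖ := by
  obtain ⟨M, hM⟩ : ∃ M : ℝ, M = ∑ k ∈ S, ‖a k‖ := ⟨_, rfl⟩
  have hM0 : 0 ≤ M := by rw [hM]; exact Finset.sum_nonneg fun k _ => norm_nonneg _
  have hε' : 0 < ε / (M + 1) := by positivity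
  have hX : ∀ k : ℝ, ∃ X : ℝ, k ∈ S → ∀ w : ℂ, X ≤ w.re →
      XX w ≠ 0 ∧ ‖XX (w - ((h - k : ℝ) : ℂ))‖ ≤ ε / (M + 1) * ‖XX w‖ := by
    intro k
    by_cases hk : k ∈ S
    · obtain ⟨X, hX⟩ := far (h - k) (ε / (M + 1)) (by linarith [hS k hk]) hε'
      exact ⟨X, fun _ => hX⟩
    · exact ⟨0, fun h => absurd h hk⟩
  choose X hX using hX
  obtain ⟨X1, hX1⟩ := far 1 1 one_pos one_pos
  obtain ⟨X2, hX2⟩ : ∃ X2 : ℝ, ∀ k ∈ S, X k ≤ X2 := by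
    obtain ⟨B, hB⟩ := (S.image X).bddAbove
    exact ⟨B, fun k hk => hB (Finset.mem_coe.2 (Finset.mem_image_of_mem X hk))⟩
  refine ⟨max X1 X2 - h, fun z hz => ?_⟩
  have hz1 : max X1 X2 ≤ (z + h).re := by rw [add_re']; linarith
  refine ⟨(hX1 _ ((le_max_left _ _).trans hz1)).1, ?_⟩
  have h3 : ∀ k ∈ S, ‖a k * XX (z + k)‖ ≤ ‖a k‖ * (ε / (M + 1) * ‖XX (z + h)‖) := by
    intro k hk
    rw [norm_mul]
    have h4 := (hX k hk (z + h) (((hX2 k hk).trans (le_max_right _ _)).trans hz1)).2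
    have e : z + h - ((h - k : ℝ) : ℂ) = z + k := by push_cast; ring
    rw [e] at h4
    exact mul_le_mul_of_nonneg_left h4 (norm_nonneg _)
  calc ‖ps S a z‖ ≤ ∑ k ∈ S, ‖a k * XX (z + k)‖ := norm_sum_le _ _
    _ ≤ ∑ k ∈ S, ‖a k‖ * (ε / (M + 1) * ‖XX (z + h)‖) := Finset.sum_le_sum h3
    _ = M * (ε / (M + 1) * ‖XX (z + h)‖) := by rw [← Finset.sum_mul, hM]
    _ = (M / (M + 1)) * (ε * ‖XX (z + h)‖) := by ring
    _ ≤ 1 * (ε * ‖XX (z + h)‖) := by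
        gcongr
        rw [div_le_one (by linarith)]
        linarith
    _ = _ := one_mul _

end Pool.Agent.Run7.h508.Sh
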