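import Pool.Agent.Run7.h508.Sh.Dir
import Pool.Agent.H986R2.K4.Xi

set_option autoImplicit false

/-!
# Zeros of combinations of shifts of xi and zero-free half-planes
-/

namespace Pool.Agent.Run7.h508.Sh

open Complex Filter Topology Set Finset
open Pool.Agent.H24R2.JP (XX HH Om)
open Pool.Agent.H986R2.K4 (ZB)
open Pool.Agent.Run7.h508.Sp (point ev_large ev_win ev_log XX_refl XX_conj)

/-- a zero-free half-plane -/
def Half : Prop := ∃ σ₀ : ℝ, 1 / 2 < σ₀ ∧ σ₀ < 1 ∧ ∀ s : ℂ, σ₀ ≤ s.re → riemannZeta s ≠ 0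

lemma fin_box {f : ℂ → ℂ} (hf : Differentiable ℂ f) {z0 : ℂ} (h0 : f z0 ≠ 0) (R T : ℝ) :
    {z : ℂ | |z.re| ≤ R ∧ |z.im| ≤ T ∧ f z = 0}.Finite := by
  by_contra hinf
  have hinf' : {z : ℂ | |z.re| ≤ R ∧ |z.im| ≤ T ∧ f z = 0}.Infinite := hinf
  have hK : IsCompact (Icc (-R) R ×ℂ Icc (-T) T) := IsCompact.reProdIm isCompact_Icc isCompact_Icc
  obtain ⟨x, hx, hacc⟩ := hinf'.exists_accPt_of_subset_isCompact hK (fun z hz => by
    obtain ⟨h1, h2, -⟩ := hz
    rw [mem_reProdIm]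
    rw [abs_le] at h1 h2
    exact ⟨h1, h2⟩)
  rw [accPt_iff_frequently_nhdsNE] at hacc
  have h1 : ∃ᶠ z in 𝓝[≠] x, f z = 0 := hacc.mono fun z hz => hz.2.2
  have han : AnalyticOnNhd ℂ f Set.univ := hf.differentiableOn.analyticOnNhd isOpen_univ
  have h2 := han.eqOn_zero_of_preconnected_of_frequently_eq_zero isPreconnected_univ (Set.mem_univ x) h1
  exact h0 (h2 (Set.mem_univ z0))

lemma zb_of {y : ℝ} (hy : 0 ≤ y) (hy2 : y ≤ 1 / 2) (h : ∀ s : ℂ, 1 / 2 + y < s.re → riemannZeta s ≠ 0) :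
    ZB y := by
  rcases lt_or_eq_of_le hy2 with h1 | h1
  · exact Pool.Agent.H986R2.K4.a2 Pool.Agent.H986R2.K4.sab Pool.Agent.H986R2.K4.a1 y hy h1 h
  · rw [h1]; exact Pool.Agent.H986R2.K4.a1

lemma half_of_strip {δ : ℝ} (hδ : 0 < δ) (h : ∀ᶠ t : ℝ in atTop, ∀ w : ℂ, w.im = t → 1 / 2 - δ ≤ w.re →
    w.re ≤ 1 / 2 → XX w ≠ 0) : Half := by
  by_contra hcon
  obtain ⟨T, hT⟩ := eventually_atTop.1 (h.and (eventually_gt_atTop 0))
  have hq : ∀ y : ℝ, y < 1 / 2 → ∃ s : ℂ, 1 / 2 + y < s.re ∧ riemannZeta s = 0 := by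
    intro y hy
    by_contra hc
    push Not at hc
    refine hcon ⟨(max (1 / 2 + y) (1 / 2) + 1) / 2, ?_, ?_, fun s hs => hc s ?_⟩
    · have := le_max_right (1 / 2 + y) (1 / 2)
      linarith
    · have : max (1 / 2 + y) (1 / 2) < 1 := max_lt (by linarith) (by norm_num)
      linarith
    · have h1 := le_max_left (1 / 2 + y) (1 / 2)
      have h2 : max (1 / 2 + y) (1 / 2) < 1 := max_lt (by linarith) (by norm_num)
      linarith
  obtain ⟨s, s1, s2, s3, s4⟩ := Pool.Agent.H986R2.K4.v0 hq δ T hδ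
  obtain ⟨h5, h6⟩ := hT s.im s4
  refine h5 (s - 1 / 2) (by simp) (by simp; linarith) (by simp; linarith) ?_
  rw [Pool.Agent.H24R2.JP.zetaS.1 (s - 1 / 2) (by simpa using h6)]
  have e : (1 / 2 : ℂ) + (s - 1 / 2) = s := by ring
  rw [e, s1, mul_zero]

lemma mem_lt {a : ℝ →₀ ℂ} {h : ℝ} (hS : ∀ k ∈ a.support, k ≤ h ∧ h < k + 1) :
    ∀ k ∈ a.support.erase h, k < h ∧ h < k + 1 := by
  intro k hk
  rw [Finset.mem_erase] at hk
  obtain ⟨h1, h2⟩ := hS k hk.2
  exact ⟨lt_of_le_of_ne h1 hk.1, h2⟩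

lemma far_FF {a : ℝ →₀ ℂ} {h : ℝ} (hh : h ∈ a.support) (hS : ∀ k ∈ a.support, k ≤ h) : ∃ X0 : ℝ,
    ∀ z : ℂ, X0 ≤ z.re → FF a z ≠ 0 := by
  have hah : a h ≠ 0 := Finsupp.mem_support_iff.1 hh
  have ha0 := norm_pos_iff.2 hah
  obtain ⟨X0, hX⟩ := farps (a.support.erase h) a h (‖a h‖ / 2) (fun k hk => by
    rw [Finset.mem_erase] at hk
    exact lt_of_le_of_ne (hS k hk.2) hk.1) (by linarith)
  refine ⟨X0, fun z hz => ?_⟩
  obtain ⟨h1, h2⟩ := hX z hz
  rw [FF_split hh]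
  exact norm_lt_of_small h1 (by linarith) h2

theorem thmA (a : ℝ →₀ ℂ) (h : ℝ) (hh : h ∈ a.support) (hS : ∀ k ∈ a.support, k ≤ h ∧ h < k + 1) :
    Half ↔ ∃ δ : ℝ, 0 < δ ∧ {z : ℂ | 1 / 2 - h - δ < z.re ∧ FF a z = 0}.Finite := by
  have hah : a h ≠ 0 := Finsupp.mem_support_iff.1 hh
  constructor
  · rintro ⟨σ₀, h1, h2, h3⟩
    have hZ : ZB (σ₀ - 1 / 2) := zb_of (by linarith) (by linarith) (fun s hs => h3 s (by linarith))
    obtain ⟨δ1, T1, hδ1, hd1⟩ := direct (by linarith) (by linarith) hZ (a.support.erase h) a h (mem_lt hS) hah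
    have hh' : h ∈ (ca a).support := by rw [ca_support]; exact hh
    have hS' : ∀ k ∈ (ca a).support, k ≤ h ∧ h < k + 1 := by rw [ca_support]; exact hS
    obtain ⟨δ2, T2, hδ2, hd2⟩ := direct (by linarith) (by linarith) hZ ((ca a).support.erase h) (ca a) h
      (mem_lt hS') (Finsupp.mem_support_iff.1 hh')
    obtain ⟨X0, hX0⟩ := far_FF hh fun k hk => (hS k hk).1
    obtain ⟨δ, hδ⟩ : ∃ δ : ℝ, δ = min δ1 δ2 := ⟨_, rfl⟩
    have e1 : δ ≤ δ1 := by rw [hδ]; exact min_le_left _ _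
    have e2 : δ ≤ δ2 := by rw [hδ]; exact min_le_right _ _
    refine ⟨δ, by rw [hδ]; exact lt_min hδ1 hδ2, ?_⟩
    refine (fin_box (FF_diff a) (z0 := (X0 : ℂ)) (hX0 _ (by simp)) (|X0| + |1 / 2 - h - δ|)
      (|T1| + |T2|)).subset ?_
    rintro z ⟨hz1, hz2⟩
    have b1 : z.re < X0 := by
      by_contra hc
      exact hX0 z (not_lt.1 hc) hz2
    have b2 : z.im < T1 := by
      by_contra hc
      rw [FF_Gs hh] at hz2
      exact hd1 (z + h) (by rw [add_re']; linarith) (by rw [add_im']; exact not_lt.1 hc) hz2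
    have b3 : -z.im < T2 := by
      by_contra hc
      have h4 : FF (ca a) ((starRingEnd ℂ) z) = 0 := by rw [FF_conj, hz2, map_zero]
      rw [FF_Gs hh'] at h4
      refine hd2 _ ?_ ?_ h4
      · rw [add_re', Complex.conj_re]; linarith
      · rw [add_im', Complex.conj_im]; exact not_lt.1 hc
    refine ⟨?_, ?_, hz2⟩
    · rw [abs_le]
      have := le_abs_self X0
      have := neg_abs_le (1 / 2 - h - δ)
      have := abs_nonneg X0
      have := abs_nonneg (1 / 2 - h - δ)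
      constructor <;> linarith
    · rw [abs_le]
      have := le_abs_self T1
      have := le_abs_self T2
      have := abs_nonneg T1
      have := abs_nonneg T2
      constructor <;> linarith
  · rintro ⟨δ, hδ, hfin⟩
    obtain ⟨T, hT⟩ := (hfin.image Complex.im).bddAbove
    obtain ⟨δ', hδ', hc⟩ := converse (a.support.erase h) a h (mem_lt hS) hah δ (T + 1) hδ (by
      intro w hw1 hw2 hw3
      have e : w = (w - h) + h := by ring
      rw [e, ← FF_Gs hh] at hw3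
      have h5 : w - h ∈ {z : ℂ | 1 / 2 - h - δ < z.re ∧ FF a z = 0} := ⟨by simp; linarith, hw3⟩
      have h6 := hT (Set.mem_image_of_mem Complex.im h5)
      simp at h6
      linarith)
    exact half_of_strip hδ' hc

lemma deriv_conj (a : ℝ →₀ ℂ) (z : ℂ) :
    deriv (FF (ca a)) ((starRingEnd ℂ) z) = (starRingEnd ℂ) (deriv (FF a) z) := by
  have h1 : HasDerivAt (FF a) (deriv (FF a) z) ((starRingEnd ℂ) ((starRingEnd ℂ) z)) := by
    rw [Complex.conj_conj]
    exact (FF_diff a z).hasDerivAt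
  have h2 : (⇑(starRingEnd ℂ) ∘ FF a ∘ ⇑(starRingEnd ℂ)) = FF (ca a) := by
    funext w
    simp only [Function.comp]
    rw [← FF_conj, Complex.conj_conj]
  have h3 := (FF_diff a z).hasDerivAt.conj_conj
  rw [h2] at h3
  exact h3.deriv

theorem thmB (a : ℝ →₀ ℂ) (c : ℂ) (h θ : ℝ) (hθ : 1 / 2 ≤ θ) (hθ1 : θ ≤ 1)
    (hζ : ∀ s : ℂ, θ < s.re → riemannZeta s ≠ 0) (hc : ∀ k, a (-k) = c * (starRingEnd ℂ) (a k))
    (hc1 : ‖c‖ = 1) (hh : h ∈ a.support) (hmax : ∀ k ∈ a.support, |k| ≤ h) (hyh : θ - 1 / 2 < h) :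
    {z : ℂ | FF a z = 0 ∧ ¬ (z.re = 0 ∧ deriv (FF a) z ≠ 0)}.Finite := by
  have hZ : ZB (θ - 1 / 2) := zb_of (by linarith) (by linarith) (fun s hs => hζ s (by linarith))
  have hc0 : c ≠ 0 := by
    intro h; rw [h, norm_zero] at hc1; norm_num at hc1
  obtain ⟨X0, hX0⟩ := far_FF hh fun k hk => (le_abs_self k).trans (hmax k hk)
  have hh' : h ∈ (ca a).support := by rw [ca_support]; exact hh
  have hmax' : ∀ k ∈ (ca a).support, |k| ≤ h := by rw [ca_support]; exact hmax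
  have hc' : ∀ k, ca a (-k) = (starRingEnd ℂ) c * (starRingEnd ℂ) (ca a k) := by
    intro k
    rw [ca_apply, ca_apply, hc, map_mul]
  obtain ⟨T1, hT1⟩ := eventually_atTop.1 (on_line (by linarith) (by linarith) hZ hc hc1 hh hmax hyh (|X0|))
  obtain ⟨T2, hT2⟩ := eventually_atTop.1 (on_line (by linarith) (by linarith) hZ hc'
    (by rw [RCLike.norm_conj]; exact hc1) hh' hmax' hyh (|X0|))
  refine (fin_box (FF_diff a) (z0 := (X0 : ℂ)) (hX0 _ (by simp)) (|X0|) (|T1| + |T2|)).subset ?_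
  rintro z ⟨hz1, hz2⟩
  have b1 : z.re < X0 := by
    by_contra hc
    exact hX0 z (not_lt.1 hc) hz1
  have b2 : -X0 < z.re := by
    by_contra hcc
    refine hX0 (-((starRingEnd ℂ) z)) (by rw [refl_re]; linarith [not_lt.1 hcc]) ?_
    have h5 := hz1
    rw [← FF_reflect hc hc0, mul_eq_zero] at h5
    exact (map_eq_zero _).1 (h5.resolve_left hc0)
  have hbre : |z.re| ≤ |X0| := by
    rw [abs_le]
    have := le_abs_self X0
    constructor <;> linarith
  have b3 : z.im < T1 := by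
    by_contra hcc
    exact hz2 (hT1 z.im (not_lt.1 hcc) z rfl hbre hz1)
  have b4 : -z.im < T2 := by
    by_contra hcc
    obtain ⟨q1, q2⟩ := hT2 (-z.im) (not_lt.1 hcc) ((starRingEnd ℂ) z) (by simp) (by simpa using hbre)
      (by rw [FF_conj, hz1, map_zero])
    refine hz2 ⟨by simpa using q1, fun h0 => q2 ?_⟩
    rw [deriv_conj, h0, map_zero]
  refine ⟨hbre, ?_, hz1⟩
  rw [abs_le]
  have := le_abs_self T1
  have := le_abs_self T2
  have := abs_nonneg T1
  have := abs_nonneg T2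
  constructor <;> linarith

/-! ### In terms of `ξ(s)` -/

/-- The Riemann xi function. -/
noncomputable def xi (s : ℂ) : ℂ := s * (s - 1) / 2 * completedRiemannZeta₀ s + 1 / 2

lemma xi_XX (s : ℂ) : xi s = 1 / 8 * XX (s - 1 / 2) := by
  unfold xi XX
  have e : (1 / 2 : ℂ) + (s - 1 / 2) = s := by ring
  rw [e]
  ring

/-- combinations of shifts of xi -/
noncomputable def comb (a : ℝ →₀ ℂ) (s : ℂ) : ℂ := a.sum fun k c => c * xi (s + k)

lemma comb_FF (a : ℝ →₀ ℂ) (s : ℂ) : comb a s = 1 / 8 * FF a (s - 1 / 2) := by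
  unfold comb FF Finsupp.sum
  rw [Finset.mul_sum]
  refine Finset.sum_congr rfl fun k _ => ?_
  show a k * xi (s + k) = 1 / 8 * (a k * XX (s - 1 / 2 + k))
  rw [xi_XX]
  have e : s + k - 1 / 2 = s - 1 / 2 + k := by ring
  rw [e]
  ring

lemma comb_zero (a : ℝ →₀ ℂ) (s : ℂ) : comb a s = 0 ↔ FF a (s - 1 / 2) = 0 := by
  rw [comb_FF, mul_eq_zero]
  constructor
  · intro h
    exact h.resolve_left (by norm_num)
  · exact Or.inr

lemma comb_deriv (a : ℝ →₀ ℂ) (s : ℂ) : deriv (comb a) s = 1 / 8 * deriv (FF a) (s - 1 / 2) := by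
  have h1 : HasDerivAt (fun s : ℂ => s - 1 / 2) 1 s := (hasDerivAt_id s).sub_const _
  have h2 := (HasDerivAt.comp s (FF_diff a (s - 1 / 2)).hasDerivAt h1).const_mul (1 / 8 : ℂ)
  rw [mul_one] at h2
  have h3 : comb a = fun s => 1 / 8 * (FF a ∘ fun s : ℂ => s - 1 / 2) s := by
    funext s
    rw [comb_FF]
    rfl
  rw [h3, h2.deriv]

lemma fin_iff (P Q : ℂ → Prop) (h : ∀ s : ℂ, P s ↔ Q (s - 1 / 2)) : {s | P s}.Finite ↔ {z | Q z}.Finite := by
  constructor
  · intro hf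
    refine (hf.image (fun s => s - 1 / 2)).subset ?_
    intro z hz
    refine ⟨z + 1 / 2, (h _).2 ?_, by ring⟩
    rw [add_sub_cancel_right]
    exact hz
  · intro hf
    refine (hf.image (fun z => z + 1 / 2)).subset ?_
    intro s hs
    exact ⟨s - 1 / 2, (h _).1 hs, by ring⟩

theorem thmA' (a : ℝ →₀ ℂ) (h : ℝ) (hh : h ∈ a.support) (hS : ∀ k ∈ a.support, k ≤ h ∧ h < k + 1) :
    Half ↔ ∃ δ : ℝ, 0 < δ ∧ {s : ℂ | 1 - h - δ < s.re ∧ comb a s = 0}.Finite := by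
  rw [thmA a h hh hS]
  refine exists_congr fun δ => and_congr_right fun _ => ?_
  rw [fin_iff (fun s => 1 - h - δ < s.re ∧ comb a s = 0) (fun z => 1 / 2 - h - δ < z.re ∧ FF a z = 0)]
  intro s
  rw [comb_zero]
  have e : (s - 1 / 2).re = s.re - 1 / 2 := by simp
  rw [e]
  refine and_congr ?_ Iff.rfl
  constructor <;> intro h <;> linarith

theorem thmB' (a : ℝ →₀ ℂ) (c : ℂ) (h θ : ℝ) (hθ : 1 / 2 ≤ θ) (hθ1 : θ ≤ 1)
    (hζ : ∀ s : ℂ, θ < s.re → riemannZeta s ≠ 0) (hc : ∀ k, a (-k) = c * (starRingEnd ℂ) (a k))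
    (hc1 : ‖c‖ = 1) (hh : h ∈ a.support) (hmax : ∀ k ∈ a.support, |k| ≤ h) (hyh : θ - 1 / 2 < h) :
    {s : ℂ | comb a s = 0 ∧ ¬ (s.re = 1 / 2 ∧ deriv (comb a) s ≠ 0)}.Finite := by
  rw [fin_iff (fun s => comb a s = 0 ∧ ¬ (s.re = 1 / 2 ∧ deriv (comb a) s ≠ 0))
    (fun z => FF a z = 0 ∧ ¬ (z.re = 0 ∧ deriv (FF a) z ≠ 0))]
  · exact thmB a c h θ hθ hθ1 hζ hc hc1 hh hmax hyh
  · intro s
    rw [comb_zero, comb_deriv]
    have e : (s - 1 / 2).re = s.re - 1 / 2 := by simp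
    rw [e, sub_eq_zero]
    refine and_congr Iff.rfl (not_congr (and_congr Iff.rfl ?_))
    rw [Ne, mul_eq_zero, not_or]
    constructor
    · exact fun h => h.2
    · exact fun h => ⟨by norm_num, h⟩

/-- two shifts -/
noncomputable def two (h : ℝ) (c : ℂ) : ℝ →₀ ℂ := Finsupp.single h 1 + Finsupp.single (-h) c

lemma two_apply {h : ℝ} (hh : 0 < h) (c : ℂ) (k : ℝ) :
    two h c k = if k = h then 1 else if k = -h then c else 0 := by
  unfold two
  rw [Finsupp.add_apply, Finsupp.single_apply, Finsupp.single_apply]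
  by_cases h1 : k = h
  · subst h1
    have h2 : ¬ (-k = k) := by intro h; linarith
    simp [h2]
  · by_cases h2 : k = -h
    · subst h2
      have h3 : ¬ (h = -h) := by intro h; linarith
      simp [h1, h3]
    · have h3 : ¬ (h = k) := fun h => h1 h.symm
      have h4 : ¬ (-h = k) := fun h => h2 h.symm
      simp [h1, h2, h3, h4]

lemma two_comb {h : ℝ} (c : ℂ) (s : ℂ) : comb (two h c) s = xi (s + h) + c * xi (s - h) := by
  unfold comb two
  rw [Finsupp.sum_add_index' (by intro k; simp) (by intro k b1 b2; ring), Finsupp.sum_single_index (by simp),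
    Finsupp.sum_single_index (by simp)]
  have e : s + ((-h : ℝ) : ℂ) = s - h := by push_cast; ring
  rw [e, one_mul]

theorem thmC (c : ℂ) (hc : ‖c‖ = 1) :
    Half ↔ ∃ h : ℝ, 0 < h ∧ h < 1 / 2 ∧ {s : ℂ | xi (s + h) + c * xi (s - h) = 0 ∧ s.re ≠ 1 / 2}.Finite := by
  have hc0 : c ≠ 0 := by
    intro h; rw [h, norm_zero] at hc; norm_num at hc
  have hcc : c * (starRingEnd ℂ) c = 1 := by
    rw [Complex.mul_conj, Complex.normSq_eq_norm_sq, hc]; norm_num
  constructor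
  · rintro ⟨σ₀, h1, h2, h3⟩
    obtain ⟨h, hh⟩ : ∃ h : ℝ, h = (σ₀ - 1 / 2 + 1 / 2) / 2 := ⟨_, rfl⟩
    have h0 : 0 < (σ₀ + 1) / 2 - 1 / 2 := by linarith
    refine ⟨(σ₀ + 1) / 2 - 1 / 2, h0, by linarith, ?_⟩
    have hsupp : ∀ k, k ∈ (two ((σ₀ + 1) / 2 - 1 / 2) c).support →
        k = (σ₀ + 1) / 2 - 1 / 2 ∨ k = -((σ₀ + 1) / 2 - 1 / 2) := by
      intro k hk
      rw [Finsupp.mem_support_iff, two_apply h0] at hk
      by_contra hcon
      push Not at hcon
      rw [if_neg hcon.1, if_neg hcon.2] at hk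
      exact hk rfl
    have key := thmB' (two ((σ₀ + 1) / 2 - 1 / 2) c) c ((σ₀ + 1) / 2 - 1 / 2) σ₀ h1.le h2.le
      (fun s hs => h3 s hs.le) (by
        intro k
        rw [two_apply h0, two_apply h0]
        by_cases q1 : k = (σ₀ + 1) / 2 - 1 / 2
        · have q2 : ¬ (-k = (σ₀ + 1) / 2 - 1 / 2) := by intro h; linarith
          have q3 : -k = -((σ₀ + 1) / 2 - 1 / 2) := by rw [q1]
          rw [if_neg q2, if_pos q3, if_pos q1, map_one, mul_one]
        · by_cases q2 : k = -((σ₀ + 1) / 2 - 1 / 2)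
          · have q3 : -k = (σ₀ + 1) / 2 - 1 / 2 := by rw [q2, neg_neg]
            rw [if_pos q3, if_neg q1, if_pos q2, hcc]
          · have q3 : ¬ (-k = (σ₀ + 1) / 2 - 1 / 2) := fun h => q2 (by rw [← h, neg_neg])
            have q4 : ¬ (-k = -((σ₀ + 1) / 2 - 1 / 2)) := fun h => q1 (neg_injective h)
            rw [if_neg q3, if_neg q4, if_neg q1, if_neg q2, map_zero, mul_zero]) hc (by
        rw [Finsupp.mem_support_iff, two_apply h0, if_pos rfl]
        exact one_ne_zero) (by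
        intro k hk
        rcases hsupp k hk with q | q
        · rw [q, abs_of_pos h0]
        · rw [q, abs_neg, abs_of_pos h0]) (by linarith)
    refine key.subset ?_
    rintro s ⟨hs1, hs2⟩
    exact ⟨by rw [two_comb]; exact hs1, fun h => hs2 h.1⟩
  · rintro ⟨h, h1, h2, h3⟩
    have hsupp : ∀ k, k ∈ (two h c).support → k = h ∨ k = -h := by
      intro k hk
      rw [Finsupp.mem_support_iff, two_apply h1] at hk
      by_contra hcon
      push Not at hcon
      rw [if_neg hcon.1, if_neg hcon.2] at hk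
      exact hk rfl
    rw [thmA' (two h c) h (by
      rw [Finsupp.mem_support_iff, two_apply h1, if_pos rfl]
      exact one_ne_zero) (by
      intro k hk
      rcases hsupp k hk with q | q
      · rw [q]; constructor <;> linarith
      · rw [q]; constructor <;> linarith)]
    refine ⟨(1 / 2 - h) / 2, by linarith, h3.subset ?_⟩
    rintro s ⟨hs1, hs2⟩
    rw [two_comb] at hs2
    exact ⟨hs2, by intro h4; linarith⟩

end Pool.Agent.Run7.h508.Sh
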