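import Mathlib
import Pool.Agent.Run7.h508.Sh.Fin

/-!
# Combinations of shifts of the Riemann xi function, and zero-free half-planes

For `h ≥ 1/2` and `|c| = 1` the zeros of `ξ(s + h) + c ξ(s - h)` are on the critical line (de Bruijn,
Lagarias); for `h < 1/2` this is known on the Riemann hypothesis only.

(1) Let `F(s) = ∑ a(k) ξ(s + k)` be any finite combination of real shifts, with complex coefficients, the
largest shift being `h` and all shifts being greater than `h - 1`.  Zeta has a zero-free half-plane if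
and only if `F` has only finitely many zeros in `Re s > 1 - h - δ` for some `δ > 0`.

(2) If zeta has no zeros with `Re s > θ`, then all but finitely many zeros of `F` are simple and on
the critical line, for each self-dual combination with largest shift `h > θ - 1/2`.

(3) So zeta has a zero-free half-plane if and only if `ξ(s + h) + c ξ(s - h)` has only finitely many
zeros off the critical line for some `h < 1/2`.

Proof.  Without zeros of `F` in the half-plane, `|F|` is at least the size of the gamma factor of the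
leading term up to `t ^ (-ε)` (Borel-Caratheodory and three circles), while the other terms are smaller
by van der Corput's estimate `ζ(1 - e + i t) = O (t ^ (o(e)))` and convexity; so the leading term has no
zeros.  Conversely the leading term dominates; near the line one uses that the real part of the
logarithmic derivative of the half `A` of `F = A + c A*` is about `(log t) / 2`.
-/

set_option autoImplicit false

namespace Pool.Agent.Run7.h508.Sh.ShiftsOfXiMain

/-- The Riemann xi function `s (s - 1) π^(-s/2) Γ(s/2) ζ(s) / 2`, as an entire function. -/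
noncomputable def xi (s : ℂ) : ℂ := s * (s - 1) / 2 * completedRiemannZeta₀ s + 1 / 2

/-- The combination `∑ a(k) ξ(s + k)` over the finite support of `a : ℝ →₀ ℂ`. -/
noncomputable def comb (a : ℝ →₀ ℂ) (s : ℂ) : ℂ := a.sum fun k c => c * xi (s + k)

/-- Zeta has a zero-free half-plane (Q1). -/
def Half : Prop := ∃ σ₀ : ℝ, 1 / 2 < σ₀ ∧ σ₀ < 1 ∧ ∀ s : ℂ, σ₀ ≤ s.re → riemannZeta s ≠ 0

/-- (1) A criterion for a zero-free half-plane for each finite combination of shifts of xi.  (2) Zeros of
self-dual combinations.  (3) The criterion in terms of the critical line. -/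
theorem main_result :
    (∀ (a : ℝ →₀ ℂ) (h : ℝ), h ∈ a.support → (∀ k ∈ a.support, k ≤ h ∧ h < k + 1) →
      (Half ↔ ∃ δ : ℝ, 0 < δ ∧ {s : ℂ | 1 - h - δ < s.re ∧ comb a s = 0}.Finite)) ∧
    (∀ (a : ℝ →₀ ℂ) (c : ℂ) (h θ : ℝ), 1 / 2 ≤ θ → θ ≤ 1 → (∀ s : ℂ, θ < s.re → riemannZeta s ≠ 0) →
      ‖c‖ = 1 → (∀ k : ℝ, a (-k) = c * (starRingEnd ℂ) (a k)) →
      h ∈ a.support → (∀ k ∈ a.support, |k| ≤ h) → θ - 1 / 2 < h →
      {s : ℂ | comb a s = 0 ∧ ¬ (s.re = 1 / 2 ∧ deriv (comb a) s ≠ 0)}.Finite) ∧
    (∀ c : ℂ, ‖c‖ = 1 → (Half ↔ ∃ h : ℝ, 0 < h ∧ h < 1 / 2 ∧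
      {s : ℂ | xi (s + h) + c * xi (s - h) = 0 ∧ s.re ≠ 1 / 2}.Finite)) :=
  ⟨fun a h hh hS => Pool.Agent.Run7.h508.Sh.thmA' a h hh hS,
    fun a c h θ h1 h2 h3 h4 h5 h6 h7 h8 => Pool.Agent.Run7.h508.Sh.thmB' a c h θ h1 h2 h3 h5 h4 h6 h7 h8,
    fun c hc => Pool.Agent.Run7.h508.Sh.thmC c hc⟩

end Pool.Agent.Run7.h508.Sh.ShiftsOfXiMain
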